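import Mathlib

set_option autoImplicit false

namespace Pool.Agent.H517R2.Golomb

/-- The hypotheses defining Golomb's sequence. -/
structure IsGolomb (f : ℕ → ℕ) : Prop where
  one : f 1 = 1
  mono : ∀ m n : ℕ, 1 ≤ m → m ≤ n → f m ≤ f n
  count : ∀ n : ℕ, 1 ≤ n → f n = Set.ncard {m : ℕ | 1 ≤ m ∧ f m = n}

/-- Summatory function. -/
def G (f : ℕ → ℕ) (n : ℕ) : ℕ := ∑ k ∈ Finset.range n, f (k + 1)

variable {f : ℕ → ℕ}

@[simp] lemma G_zero : G f 0 = 0 := by simp [G]

lemma G_succ (n : ℕ) : G f (n + 1) = G f n + f (n + 1) := by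
  simp [G, Finset.sum_range_succ]

lemma IsGolomb.pos (h : IsGolomb f) {n : ℕ} (hn : 1 ≤ n) : 1 ≤ f n := by
  have := h.mono 1 n le_rfl hn
  rw [h.one] at this
  exact this

lemma downclosed_eq_Icc {T : Set ℕ} (hfin : T.Finite) (hpos : ∀ m ∈ T, 1 ≤ m)
    (hdown : ∀ m n, 1 ≤ m → m ≤ n → n ∈ T → m ∈ T) : T = Set.Icc 1 T.ncard := by
  have key : ∀ m, 1 ≤ m → (m ∈ T ↔ m ≤ T.ncard) := by
    intro m hm
    constructor
    · intro hmT
      have hsub : Set.Icc 1 m ⊆ T := fun x hx => hdown x m hx.1 hx.2 hmT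
      have h1 := Set.ncard_le_ncard hsub hfin
      rw [← Nat.card_coe_set_eq, Nat.card_eq_fintype_card] at h1
      simpa using h1
    · intro hle
      by_contra hmT
      have hsub : T ⊆ Set.Icc 1 (m - 1) := by
        intro x hx
        refine ⟨hpos x hx, ?_⟩
        by_contra hlt
        exact hmT (hdown m x hm (by omega) hx)
      have h1 := Set.ncard_le_ncard hsub (Set.finite_Icc _ _)
      rw [← Nat.card_coe_set_eq (Set.Icc 1 (m-1)), Nat.card_eq_fintype_card] at h1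
      simp at h1
      omega
  ext m
  constructor
  · intro hm
    exact ⟨hpos m hm, (key m (hpos m hm)).1 hm⟩
  · intro hm
    exact (key m hm.1).2 hm.2

lemma IsGolomb.T_eq (h : IsGolomb f) (n : ℕ) :
    {m : ℕ | 1 ≤ m ∧ f m ≤ n} = Set.Icc 1 (G f n) := by
  induction n with
  | zero =>
    ext m
    simp only [Set.mem_setOf_eq, G_zero, Set.mem_Icc]
    constructor
    · rintro ⟨h1, h2⟩
      have := h.pos h1
      omega
    · rintro ⟨h1, h2⟩
      omega
  | succ n ih =>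
    have hS : {m : ℕ | 1 ≤ m ∧ f m = n + 1}.ncard = f (n + 1) := (h.count (n + 1) (by omega)).symm
    have hSpos : 0 < {m : ℕ | 1 ≤ m ∧ f m = n + 1}.ncard := by
      rw [hS]; exact h.pos (by omega)
    have hSfin : {m : ℕ | 1 ≤ m ∧ f m = n + 1}.Finite := Set.finite_of_ncard_pos hSpos
    have hU : {m : ℕ | 1 ≤ m ∧ f m ≤ n + 1} =
        {m : ℕ | 1 ≤ m ∧ f m ≤ n} ∪ {m : ℕ | 1 ≤ m ∧ f m = n + 1} := by
      ext m
      simp only [Set.mem_setOf_eq, Set.mem_union]
      omega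
    have hdisj : Disjoint {m : ℕ | 1 ≤ m ∧ f m ≤ n} {m : ℕ | 1 ≤ m ∧ f m = n + 1} := by
      rw [Set.disjoint_left]
      rintro m ⟨_, h2⟩ ⟨_, h3⟩
      omega
    have hTfin : {m : ℕ | 1 ≤ m ∧ f m ≤ n}.Finite := by
      rw [ih]; exact Set.finite_Icc _ _
    have hfin : {m : ℕ | 1 ≤ m ∧ f m ≤ n + 1}.Finite := by
      rw [hU]; exact hTfin.union hSfin
    have hcard : {m : ℕ | 1 ≤ m ∧ f m ≤ n + 1}.ncard = G f (n + 1) := by
      rw [hU, Set.ncard_union_eq hdisj hTfin hSfin, hS, ih, G_succ]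
      congr 1
      rw [← Nat.card_coe_set_eq, Nat.card_eq_fintype_card]
      simp
    have := downclosed_eq_Icc hfin (fun m hm => hm.1) (by
      intro m k hm hmk hk
      exact ⟨hm, (h.mono m k hm hmk).trans hk.2⟩)
    rw [hcard] at this
    exact this

lemma IsGolomb.le_iff (h : IsGolomb f) {m : ℕ} (hm : 1 ≤ m) (n : ℕ) : f m ≤ n ↔ m ≤ G f n := by
  have := h.T_eq n
  have h2 : m ∈ {m : ℕ | 1 ≤ m ∧ f m ≤ n} ↔ m ∈ Set.Icc 1 (G f n) := by rw [this]
  simp only [Set.mem_setOf_eq, Set.mem_Icc] at h2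
  constructor
  · intro h3; exact (h2.1 ⟨hm, h3⟩).2
  · intro h3; exact (h2.2 ⟨hm, h3⟩).2

lemma IsGolomb.lt_iff (h : IsGolomb f) {m : ℕ} (hm : 1 ≤ m) (n : ℕ) : n < f m ↔ G f n < m := by
  have := h.le_iff hm n
  constructor
  · intro h1; by_contra h2; exact absurd (this.2 (by omega)) (by omega)
  · intro h1; by_contra h2; exact absurd (this.1 (by omega)) (by omega)

lemma IsGolomb.eq_of_mem (h : IsGolomb f) {m n : ℕ} (h1 : G f n < m) (h2 : m ≤ G f (n + 1)) :
    f m = n + 1 := by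
  have hm : 1 ≤ m := by omega
  have a := (h.lt_iff hm n).2 h1
  have b := (h.le_iff hm (n + 1)).2 h2
  omega

lemma IsGolomb.G_lt_succ (h : IsGolomb f) (n : ℕ) : G f n < G f (n + 1) := by
  rw [G_succ]
  have := h.pos (n := n + 1) (by omega)
  omega

lemma IsGolomb.G_strictMono (h : IsGolomb f) : StrictMono (G f) :=
  strictMono_nat_of_lt_succ h.G_lt_succ

lemma IsGolomb.G_mono (h : IsGolomb f) : Monotone (G f) := h.G_strictMono.monotone

lemma IsGolomb.le_G (h : IsGolomb f) (n : ℕ) : n ≤ G f n := h.G_strictMono.le_apply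

lemma IsGolomb.f_G (h : IsGolomb f) (n : ℕ) : f (G f (n + 1)) = n + 1 :=
  h.eq_of_mem (h.G_lt_succ n) le_rfl

/-- `G` is linear with slope `n+1` on `[G n, G (n+1)]`. -/
lemma IsGolomb.G_lin (h : IsGolomb f) (n t : ℕ) (ht : t ≤ f (n + 1)) :
    G f (G f n + t) = G f (G f n) + (n + 1) * t := by
  induction t with
  | zero => simp
  | succ t ih =>
    have ih' := ih (by omega)
    have e : f (G f n + t + 1) = n + 1 := by
      apply h.eq_of_mem (by omega)
      rw [G_succ]; omega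
    rw [← add_assoc, G_succ, e, ih']
    ring

lemma IsGolomb.GG_succ (h : IsGolomb f) (n : ℕ) :
    G f (G f (n + 1)) = G f (G f n) + (n + 1) * f (n + 1) := by
  rw [G_succ, h.G_lin n _ le_rfl]

/-- On a block of `f`, the values of `G ∘ G` form a quadratic polynomial. -/
lemma IsGolomb.GG_quad (h : IsGolomb f) (n t : ℕ) (ht : t ≤ f (n + 1)) :
    2 * G f (G f (G f n + t)) = 2 * G f (G f (G f n)) + (n + 1) * (2 * G f n * t + t * (t + 1)) := by
  induction t with
  | zero => simp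
  | succ t ih =>
    have ih' := ih (by omega)
    have e : f (G f n + t + 1) = n + 1 := by
      apply h.eq_of_mem (by omega)
      rw [G_succ]; omega
    have e2 := h.GG_succ (G f n + t)
    rw [e] at e2
    rw [← add_assoc, e2, mul_add, ih']
    ring

lemma IsGolomb.GGG_succ (h : IsGolomb f) (n : ℕ) :
    2 * G f (G f (G f (n + 1))) = 2 * G f (G f (G f n)) +
      (n + 1) * (2 * G f n * f (n + 1) + f (n + 1) * (f (n + 1) + 1)) := by
  have := h.GG_quad n _ le_rfl
  rwa [← G_succ] at this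

/-- tangent line bound: for `x ≤ n`, `G n ≥ G x + f (x+1) * (n - x)`. -/
lemma IsGolomb.tangent (h : IsGolomb f) (x d : ℕ) :
    G f x + f (x + 1) * d ≤ G f (x + d) := by
  induction d with
  | zero => simp
  | succ d ih =>
    rw [← add_assoc, G_succ]
    have := h.mono (x + 1) (x + d + 1) (by omega) (by omega)
    nlinarith

lemma IsGolomb.f_G_succ (h : IsGolomb f) (n : ℕ) : f (G f n + 1) = n + 1 := by
  apply h.eq_of_mem (by omega)
  have := h.G_lt_succ n
  omega

lemma IsGolomb.f_lt_self (h : IsGolomb f) {n : ℕ} (hn : 1 ≤ n) : f n ≤ n :=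
  (h.le_iff hn n).2 (h.le_G n)

lemma IsGolomb.two (h : IsGolomb f) : f 2 = 2 ∧ f 3 = 2 := by
  have g1 : G f 1 = 1 := by simp [G, h.one]
  have g2 : G f 2 = 1 + f 2 := by rw [G_succ, g1]
  have a : 1 < f 2 := (h.lt_iff (by omega) 1).2 (by omega)
  have b : f 2 ≤ 2 := (h.le_iff (by omega) 2).2 (by omega)
  have c : f 3 ≤ 2 := (h.le_iff (by omega) 2).2 (by omega)
  have d := h.mono 2 3 (by omega) (by omega)
  omega

end Pool.Agent.H517R2.Golomb
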