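import Mathlib

set_option autoImplicit false

namespace Pool.Agent.H517R2.Golomb

/-- From `[f j, f (j+1), ...]` build `j` repeated `f j` times, `j+1` repeated `f (j+1)` times, ... -/
def expandAux : ℕ → List ℕ → List ℕ
  | _, [] => []
  | j, c :: l => List.replicate c j ++ expandAux (j + 1) l

/-- The first 369 values of Golomb's sequence. -/
def bl : List ℕ :=
  [1, 2, 2, 3, 3, 4, 4, 4, 5, 5, 5, 6, 6, 6, 6, 7, 7, 7, 7, 8, 8, 8, 8, 9, 9, 9, 9, 9, 10, 10, 10,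
   10, 10, 11, 11, 11, 11, 11, 12, 12, 12, 12, 12, 12, 13, 13, 13, 13, 13, 13, 14, 14, 14, 14, 14,
   14, 15, 15, 15, 15, 15, 15, 16, 16, 16, 16, 16, 16, 16, 17, 17, 17, 17, 17, 17, 17, 18, 18, 18,
   18, 18, 18, 18, 19, 19, 19, 19, 19, 19, 19, 20, 20, 20, 20, 20, 20, 20, 20, 21, 21, 21, 21, 21,
   21, 21, 21, 22, 22, 22, 22, 22, 22, 22, 22, 23, 23, 23, 23, 23, 23, 23, 23, 24, 24, 24, 24, 24,
   24, 24, 24, 24, 25, 25, 25, 25, 25, 25, 25, 25, 25, 26, 26, 26, 26, 26, 26, 26, 26, 26, 27, 27,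
   27, 27, 27, 27, 27, 27, 27, 28, 28, 28, 28, 28, 28, 28, 28, 28, 29, 29, 29, 29, 29, 29, 29, 29,
   29, 29, 30, 30, 30, 30, 30, 30, 30, 30, 30, 30, 31, 31, 31, 31, 31, 31, 31, 31, 31, 31, 32, 32,
   32, 32, 32, 32, 32, 32, 32, 32, 33, 33, 33, 33, 33, 33, 33, 33, 33, 33, 34, 34, 34, 34, 34, 34,
   34, 34, 34, 34, 34, 35, 35, 35, 35, 35, 35, 35, 35, 35, 35, 35, 36, 36, 36, 36, 36, 36, 36, 36,
   36, 36, 36, 37, 37, 37, 37, 37, 37, 37, 37, 37, 37, 37, 38, 38, 38, 38, 38, 38, 38, 38, 38, 38,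
   38, 39, 39, 39, 39, 39, 39, 39, 39, 39, 39, 39, 39, 40, 40, 40, 40, 40, 40, 40, 40, 40, 40, 40,
   40, 41, 41, 41, 41, 41, 41, 41, 41, 41, 41, 41, 41, 42, 42, 42, 42, 42, 42, 42, 42, 42, 42, 42,
   42, 43, 43, 43, 43, 43, 43, 43, 43, 43, 43, 43, 43, 44, 44, 44, 44, 44, 44, 44, 44, 44, 44, 44,
   44, 45, 45, 45, 45, 45, 45, 45, 45, 45, 45, 45, 45, 45, 46, 46, 46, 46, 46, 46, 46, 46, 46, 46,
   46, 46]

theorem bl_eq : bl = (expandAux 1 (expandAux 1 (expandAux 1 (expandAux 1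
    (expandAux 1 [1, 2, 2]))))).take 369 := by
  decide +kernel

/-- Inner loop for the coarse check. `t` is the common value of `f` on the block, the third argument the
number of remaining steps, then `m`, `G m`, `G (G m)`. -/
def innerA (ck : ℕ → ℕ → ℕ → ℕ → ℕ → Bool) (t : ℕ) :
    ℕ → ℕ → ℕ → ℕ → (ℕ → ℕ → ℕ → Bool) → Bool
  | 0, m, g, gg, k => k m g gg
  | c + 1, m, g, gg, k =>
    ck m g gg (g + t) (gg + (m + 1) * t) && innerA ck t c (m + 1) (g + t) (gg + (m + 1) * t) k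

/-- Outer loop for the coarse check. -/
def outerA (ck : ℕ → ℕ → ℕ → ℕ → ℕ → Bool) : List ℕ → ℕ → ℕ → ℕ → ℕ → Bool
  | [], _, _, _, _ => true
  | c :: l, j, m, g, gg => innerA ck j c m g gg (fun m g gg => outerA ck l (j + 1) m g gg)

/-- The coarse check at a single point. -/
def ckA (m g gg g' gg' : ℕ) : Bool :=
  cond (Nat.ble 140 m)
    (and (Nat.ble (gg' ^ 89 * (16181 * Nat.fib 55 + 10000 * Nat.fib 54)) (67000 * g ^ 144))
      (Nat.ble (10000 * g' ^ 233) (gg ^ 144 * (1618 * Nat.fib 89 + 1000 * Nat.fib 88) * 215)))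
    true

theorem checkA : outerA ckA (bl.take 158) 1 0 0 0 = true := by
  decide +kernel

/-- Values of `G` at a few points. -/
def ckG (m g gg g' _gg' : ℕ) : Bool :=
  and (cond (Nat.beq m 140) (Nat.beq g 2215) true)
    (and (cond (Nat.beq m 2691) (Nat.beq g' 263722) true)
      (cond (Nat.beq m 1068) (Nat.beq gg 39049185) true))

theorem checkG : outerA ckG (bl.take 158) 1 0 0 0 = true := by
  decide +kernel

theorem bl_sum : (bl.take 158).sum = 2692 := by decide +kernel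

/-- The fine check at a single point. -/
def ckM (L x : ℕ) : Bool :=
  Nat.ble (10785 * x ^ 1597) (L ^ 987 * ((1618 * Nat.fib 610 + 1000 * Nat.fib 609) * 10))

/-- Inner loop for the fine check. -/
def innerM (t : ℕ) : ℕ → ℕ → ℕ → ℕ → ℕ → ℕ → ℕ → ℕ → ℕ →
    (ℕ → ℕ → ℕ → ℕ → ℕ → ℕ → ℕ → ℕ → Bool) → Bool
  | 0, i, g, gg, ggg, i0, g0, gg0, ggg0, k => k i g gg ggg i0 g0 gg0 ggg0
  | c + 1, i, g, gg, ggg, i0, g0, gg0, ggg0, k =>
    let i' := i + 1
    let g' := g + t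
    let gg' := gg + i' * t
    let ggg' := ggg + i' * (2 * g * t + t * (t + 1)) / 2
    cond (Nat.ble i' 1068)
      (cond (Nat.beq i' 1068)
        (and (ckM ggg' gg') (innerM t c i' g' gg' ggg' i' g' gg' ggg' k))
        (innerM t c i' g' gg' ggg' i' g' gg' ggg' k))
      (cond (Nat.ble (i0 + i0 / 400) i')
        (and (ckM (ggg0 + (g0 + 1) * (gg' - gg0)) gg') (innerM t c i' g' gg' ggg' i' g' gg' ggg' k))
        (innerM t c i' g' gg' ggg' i0 g0 gg0 ggg0 k))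

/-- Outer loop for the fine check. -/
def outerM : List ℕ → ℕ → ℕ → ℕ → ℕ → ℕ → ℕ → ℕ → ℕ → ℕ → Bool
  | [], _, i, _, _, _, i0, _, gg0, _ => and (Nat.ble 1068 i0) (and (Nat.ble i0 i) (Nat.ble 15767500000 gg0))
  | c :: l, j, i, g, gg, ggg, i0, g0, gg0, ggg0 =>
    innerM j c i g gg ggg i0 g0 gg0 ggg0
      (fun i g gg ggg i0 g0 gg0 ggg0 => outerM l (j + 1) i g gg ggg i0 g0 gg0 ggg0)

theorem checkM : outerM bl 1 0 0 0 0 0 0 0 0 = true := by
  decide +kernel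

end Pool.Agent.H517R2.Golomb
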