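import Mathlib
import Pool.Agent.H517R2.Golomb.Basic
import Pool.Agent.H517R2.Golomb.Kern

set_option autoImplicit false

namespace Pool.Agent.H517R2.Golomb

variable {f : ℕ → ℕ}

/-- `l` is the list `f (a+1), f (a+2), ...`. -/
def IsSeg (f : ℕ → ℕ) : ℕ → List ℕ → Prop
  | _, [] => True
  | a, c :: l => c = f (a + 1) ∧ IsSeg f (a + 1) l

lemma IsSeg.append {a : ℕ} {l1 l2 : List ℕ} (h1 : IsSeg f a l1) (h2 : IsSeg f (a + l1.length) l2) :
    IsSeg f a (l1 ++ l2) := by
  induction l1 generalizing a with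
  | nil => simpa using h2
  | cons c l ih =>
    obtain ⟨h3, h4⟩ := h1
    refine ⟨h3, ih h4 ?_⟩
    have : a + 1 + l.length = a + (c :: l).length := by simp; omega
    rw [this]; exact h2

lemma IsSeg.take {a : ℕ} {l : List ℕ} (h : IsSeg f a l) (k : ℕ) : IsSeg f a (l.take k) := by
  induction l generalizing a k with
  | nil => simpa using h
  | cons c l ih =>
    cases k with
    | zero => simp [IsSeg]
    | succ k => exact ⟨h.1, ih h.2 k⟩

lemma IsSeg.G_length {a : ℕ} {l : List ℕ} (h : IsSeg f a l) : G f (a + l.length) = G f a + l.sum := by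
  induction l generalizing a with
  | nil => simp
  | cons c l ih =>
    have := ih h.2
    have e : a + (c :: l).length = a + 1 + l.length := by simp; omega
    rw [e, this, G_succ, List.sum_cons, h.1]
    ring

lemma IsSeg.replicate {a c v : ℕ} (h : ∀ i, i < c → f (a + i + 1) = v) :
    IsSeg f a (List.replicate c v) := by
  induction c generalizing a with
  | zero => simp [IsSeg]
  | succ c ih =>
    rw [List.replicate_succ]
    refine ⟨(h 0 (by omega)).symm, ih ?_⟩
    intro i hi
    have := h (i + 1) (by omega)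
    rw [← this]; congr 1; ring

lemma IsGolomb.f_block (h : IsGolomb f) (n : ℕ) {i : ℕ} (hi : i < f (n + 1)) :
    f (G f n + i + 1) = n + 1 := by
  apply h.eq_of_mem (by omega)
  rw [G_succ]; omega

lemma IsGolomb.expand_seg (h : IsGolomb f) {a : ℕ} {l : List ℕ} (hl : IsSeg f a l) :
    IsSeg f (G f a) (expandAux (a + 1) l) := by
  induction l generalizing a with
  | nil => simp [expandAux, IsSeg]
  | cons c l ih =>
    rw [expandAux]
    apply IsSeg.append
    · apply IsSeg.replicate
      intro i hi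
      rw [hl.1] at hi
      exact h.f_block a hi
    · have := ih hl.2
      rw [G_succ] at this
      rw [List.length_replicate, hl.1]
      exact this

lemma IsGolomb.bl_seg (h : IsGolomb f) : IsSeg f 0 bl := by
  have h0 : IsSeg f 0 [1, 2, 2] := ⟨h.one.symm, h.two.1.symm, h.two.2.symm, trivial⟩
  have key : ∀ l : List ℕ, IsSeg f 0 l → IsSeg f 0 (expandAux 1 l) := by
    intro l hl
    have := h.expand_seg hl
    simpa using this
  rw [bl_eq]
  exact (key _ (key _ (key _ (key _ (key _ h0))))).take 369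

lemma IsGolomb.innerA_spec (h : IsGolomb f) (ck : ℕ → ℕ → ℕ → ℕ → ℕ → Bool) (t : ℕ)
    (k : ℕ → ℕ → ℕ → Bool) :
    ∀ c m : ℕ, innerA ck t c m (G f m) (G f (G f m)) k = true → (∀ i, i < c → f (m + i + 1) = t) →
      (∀ i, i < c → ck (m + i) (G f (m + i)) (G f (G f (m + i))) (G f (m + i + 1))
        (G f (G f (m + i + 1))) = true) ∧ k (m + c) (G f (m + c)) (G f (G f (m + c))) = true := by
  intro c
  induction c with
  | zero =>
    intro m hm _
    refine ⟨fun i hi => by omega, ?_⟩
    simpa [innerA] using hm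
  | succ c ih =>
    intro m hm hf
    have ht : f (m + 1) = t := hf 0 (by omega)
    have e1 : G f m + t = G f (m + 1) := by rw [G_succ, ht]
    have e2 : G f (G f m) + (m + 1) * t = G f (G f (m + 1)) := by rw [h.GG_succ, ht]
    rw [innerA, Bool.and_eq_true, e1, e2] at hm
    obtain ⟨hc, hr⟩ := hm
    obtain ⟨h1, h2⟩ := ih (m + 1) hr (by
      intro i hi
      have := hf (i + 1) (by omega)
      rw [← this]; congr 1; ring)
    constructor
    · intro i hi
      cases i with
      | zero => simpa using hc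
      | succ i =>
        have := h1 i (by omega)
        have e : m + 1 + i = m + (i + 1) := by ring
        rw [e] at this
        exact this
    · have e : m + 1 + c = m + (c + 1) := by ring
      rw [e] at h2
      exact h2

lemma IsGolomb.outerA_spec (h : IsGolomb f) (ck : ℕ → ℕ → ℕ → ℕ → ℕ → Bool) :
    ∀ (l : List ℕ) (j : ℕ), IsSeg f j l →
      outerA ck l (j + 1) (G f j) (G f (G f j)) (G f (G f (G f j))) = true →
      ∀ i, G f j ≤ i → i < G f (j + l.length) →
        ck i (G f i) (G f (G f i)) (G f (i + 1)) (G f (G f (i + 1))) = true := by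
  intro l
  induction l with
  | nil =>
    intro j _ _ i h1 h2
    simp at h2
    omega
  | cons c l ih =>
    intro j hseg ho i h1 h2
    rw [outerA] at ho
    obtain ⟨hc, hseg'⟩ := hseg
    obtain ⟨h3, h4⟩ := h.innerA_spec ck (j + 1) _ c (G f j) ho (by
      intro i hi
      rw [hc] at hi
      exact h.f_block j hi)
    have e1 : G f j + c = G f (j + 1) := by rw [G_succ, hc]
    rw [e1] at h4
    by_cases hi : i < G f (j + 1)
    · have := h3 (i - G f j) (by omega)
      have e : G f j + (i - G f j) = i := by omega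
      rw [e] at this
      exact this
    · have e : j + (c :: l).length = j + 1 + l.length := by simp; omega
      rw [e] at h2
      exact ih (j + 1) hseg' h4 i (by omega) h2

lemma IsGolomb.G158 (h : IsGolomb f) : G f 158 = 2692 := by
  have h1 := (h.bl_seg.take 158).G_length
  rw [bl_sum] at h1
  have h2 : (bl.take 158).length = 158 := by decide +kernel
  rw [h2] at h1
  simpa using h1

lemma IsGolomb.ckA_true (h : IsGolomb f) {i : ℕ} (hi : i < 2692) :
    ckA i (G f i) (G f (G f i)) (G f (i + 1)) (G f (G f (i + 1))) = true := by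
  have h2 : (bl.take 158).length = 158 := by decide +kernel
  apply h.outerA_spec ckA (bl.take 158) 0 (h.bl_seg.take 158) (by simpa using checkA) i (by simp)
  rw [h2]
  simp [h.G158, hi]

lemma IsGolomb.ckG_true (h : IsGolomb f) {i : ℕ} (hi : i < 2692) :
    ckG i (G f i) (G f (G f i)) (G f (i + 1)) (G f (G f (i + 1))) = true := by
  have h2 : (bl.take 158).length = 158 := by decide +kernel
  apply h.outerA_spec ckG (bl.take 158) 0 (h.bl_seg.take 158) (by simpa using checkG) i (by simp)
  rw [h2]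
  simp [h.G158, hi]

lemma IsGolomb.G140 (h : IsGolomb f) : G f 140 = 2215 := by
  have := h.ckG_true (i := 140) (by omega)
  simp only [ckG, Bool.and_eq_true] at this
  have h2 := this.1
  rw [Nat.beq_refl 140, cond_true] at h2
  exact Nat.eq_of_beq_eq_true h2

lemma IsGolomb.G2692 (h : IsGolomb f) : G f 2692 = 263722 := by
  have := h.ckG_true (i := 2691) (by omega)
  simp only [ckG, Bool.and_eq_true] at this
  have h2 := this.2.1
  rw [Nat.beq_refl 2691, cond_true] at h2
  exact Nat.eq_of_beq_eq_true h2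

lemma IsGolomb.GG1068 (h : IsGolomb f) : G f (G f 1068) = 39049185 := by
  have := h.ckG_true (i := 1068) (by omega)
  simp only [ckG, Bool.and_eq_true] at this
  have h2 := this.2.2
  rw [Nat.beq_refl 1068, cond_true] at h2
  exact Nat.eq_of_beq_eq_true h2


/-- The state of the fine check is correct. -/
def St (f : ℕ → ℕ) (i g gg ggg : ℕ) : Prop := g = G f i ∧ gg = G f g ∧ ggg = G f gg

lemma IsGolomb.St_succ (h : IsGolomb f) {i g gg ggg t : ℕ} (hs : St f i g gg ggg)
    (ht : f (i + 1) = t) :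
    St f (i + 1) (g + t) (gg + (i + 1) * t) (ggg + (i + 1) * (2 * g * t + t * (t + 1)) / 2) := by
  obtain ⟨h1, h2, h3⟩ := hs
  subst h1 h2 h3
  have e1 : G f i + t = G f (i + 1) := by rw [G_succ, ht]
  have e2 : G f (G f i) + (i + 1) * t = G f (G f (i + 1)) := by rw [h.GG_succ, ht]
  refine ⟨e1, ?_, ?_⟩
  · rw [e1, e2]
  · rw [e2]
    have := h.GGG_succ i
    rw [ht] at this
    omega

/-- `Bd` is the property that a bound holds at all points of `[X, gg0]`. The loop invariant. -/
def Inv (f : ℕ → ℕ) (P : ℕ → Prop) (i i0 g0 gg0 ggg0 : ℕ) : Prop :=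
  St f i0 g0 gg0 ggg0 ∧ i0 ≤ i ∧ (i ≤ 1068 → i0 = i) ∧ (1068 ≤ i → 1068 ≤ i0) ∧
    (∀ n, G f (G f 1068) ≤ n → n ≤ gg0 → P n)

lemma IsGolomb.innerM_spec (h : IsGolomb f) {P : ℕ → Prop}
    (hP1 : ∀ L x : ℕ, ckM L x = true → x = G f (G f 1068) → L = G f x → P x)
    (hP2 : ∀ L0 s x0 x n : ℕ, ckM (L0 + s * (x - x0)) x = true → G f (G f 1068) ≤ x0 → x0 < x →
      P x0 → L0 = G f x0 → s = f (x0 + 1) → x0 ≤ n → n ≤ x → P n) (t : ℕ)
    (k : ℕ → ℕ → ℕ → ℕ → ℕ → ℕ → ℕ → ℕ → Bool) :
    ∀ c i g gg ggg i0 g0 gg0 ggg0 : ℕ, innerM t c i g gg ggg i0 g0 gg0 ggg0 k = true →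
      (∀ r, r < c → f (i + r + 1) = t) → St f i g gg ggg → Inv f P i i0 g0 gg0 ggg0 →
      ∃ g1 gg1 ggg1 i0' g0' gg0' ggg0', St f (i + c) g1 gg1 ggg1 ∧
        Inv f P (i + c) i0' g0' gg0' ggg0' ∧ k (i + c) g1 gg1 ggg1 i0' g0' gg0' ggg0' = true := by
  intro c
  induction c with
  | zero =>
    intro i g gg ggg i0 g0 gg0 ggg0 hm _ hs hi
    exact ⟨g, gg, ggg, i0, g0, gg0, ggg0, hs, hi, by simpa [innerM] using hm⟩
  | succ c ih =>
    intro i g gg ggg i0 g0 gg0 ggg0 hm hf hs hi
    have ht : f (i + 1) = t := hf 0 (by omega)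
    have hs' := h.St_succ hs ht
    have hf' : ∀ r, r < c → f (i + 1 + r + 1) = t := by
      intro r hr
      have := hf (r + 1) (by omega)
      rw [← this]; congr 1; ring
    have e : i + (c + 1) = (i + 1) + c := by ring
    rw [e]
    have hpos := h.pos (n := i + 1) (by omega)
    rw [innerM] at hm
    rcases hb1 : Nat.ble (i + 1) 1068 with _ | _
    · -- i + 1 > 1068
      have hi1 : 1068 < i + 1 := by
        by_contra hc
        have : Nat.ble (i + 1) 1068 = true := Nat.ble_eq_true_of_le (by omega)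
        rw [hb1] at this
        exact absurd this (by simp)
      rw [hb1] at hm
      simp only [cond_false] at hm
      obtain ⟨hiS, hile, hi3, hi4, hiP⟩ := hi
      have hi0 : 1068 ≤ i0 := hi4 (by omega)
      rcases hb2 : Nat.ble (i0 + i0 / 400) (i + 1) with _ | _
      · rw [hb2] at hm
        simp only [cond_false] at hm
        exact ih _ _ _ _ _ _ _ _ hm hf' hs' ⟨hiS, by omega, by omega, by omega, hiP⟩
      · rw [hb2] at hm
        simp only [cond_true, Bool.and_eq_true] at hm
        obtain ⟨hck, hm⟩ := hm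
        apply ih _ _ _ _ _ _ _ _ hm hf' hs'
        refine ⟨hs', le_rfl, fun _ => rfl, fun _ => by omega, ?_⟩
        intro n hn1 hn2
        by_cases hn : n ≤ gg0
        · exact hiP n hn1 hn
        · have hX : G f (G f 1068) ≤ gg0 := by
            rw [hiS.2.1, hiS.1]
            exact h.G_mono (h.G_mono hi0)
          have hlt : gg0 < gg + (i + 1) * t := by omega
          refine hP2 ggg0 (g0 + 1) gg0 (gg + (i + 1) * t) n hck hX hlt (hiP gg0 hX le_rfl) hiS.2.2 ?_
            (by omega) hn2
          rw [hiS.2.1]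
          exact (h.f_G_succ g0).symm
    · have hi1 : i + 1 ≤ 1068 := Nat.le_of_ble_eq_true hb1
      rw [hb1] at hm
      simp only [cond_true] at hm
      rcases hb2 : Nat.beq (i + 1) 1068 with _ | _
      · rw [hb2] at hm
        simp only [cond_false] at hm
        have hne : i + 1 ≠ 1068 := by
          intro hc
          have : Nat.beq (i + 1) 1068 = true := by rw [hc]; exact Nat.beq_refl 1068
          rw [hb2] at this
          exact absurd this (by simp)
        apply ih _ _ _ _ _ _ _ _ hm hf' hs'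
        refine ⟨hs', le_rfl, fun _ => rfl, fun hh => by omega, ?_⟩
        intro n hn1 hn2
        exfalso
        have : gg + (i + 1) * t < G f (G f 1068) := by
          rw [hs'.2.1, hs'.1]
          exact h.G_strictMono (h.G_strictMono (by omega))
        omega
      · rw [hb2] at hm
        simp only [cond_true, Bool.and_eq_true] at hm
        obtain ⟨hck, hm⟩ := hm
        have hne : i + 1 = 1068 := Nat.eq_of_beq_eq_true hb2
        apply ih _ _ _ _ _ _ _ _ hm hf' hs'
        refine ⟨hs', le_rfl, fun _ => rfl, fun hh => by omega, ?_⟩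
        intro n hn1 hn2
        have hX : gg + (i + 1) * t = G f (G f 1068) := by
          rw [hs'.2.1, hs'.1, hne]
        have hn : n = gg + (i + 1) * t := by omega
        rw [hn]
        exact hP1 _ _ hck hX hs'.2.2

lemma IsGolomb.outerM_spec (h : IsGolomb f) {P : ℕ → Prop}
    (hP1 : ∀ L x : ℕ, ckM L x = true → x = G f (G f 1068) → L = G f x → P x)
    (hP2 : ∀ L0 s x0 x n : ℕ, ckM (L0 + s * (x - x0)) x = true → G f (G f 1068) ≤ x0 → x0 < x →
      P x0 → L0 = G f x0 → s = f (x0 + 1) → x0 ≤ n → n ≤ x → P n) :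
    ∀ (l : List ℕ) (j : ℕ), IsSeg f j l → ∀ g gg ggg i0 g0 gg0 ggg0,
      outerM l (j + 1) (G f j) g gg ggg i0 g0 gg0 ggg0 = true →
      St f (G f j) g gg ggg → Inv f P (G f j) i0 g0 gg0 ggg0 →
      ∀ n, G f (G f 1068) ≤ n → n ≤ 15767500000 → P n := by
  intro l
  induction l with
  | nil =>
    intro j _ g gg ggg i0 g0 gg0 ggg0 ho hs hi n hn1 hn2
    simp only [outerM, Bool.and_eq_true] at ho
    have h3 := Nat.le_of_ble_eq_true ho.2.2
    exact hi.2.2.2.2 n hn1 (by omega)
  | cons c l ih =>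
    intro j hseg g gg ggg i0 g0 gg0 ggg0 ho hs hi
    rw [outerM] at ho
    obtain ⟨hc, hseg'⟩ := hseg
    obtain ⟨g1, gg1, ggg1, i0', g0', gg0', ggg0', h1, h2, h3⟩ :=
      h.innerM_spec hP1 hP2 (j + 1) _ c (G f j) g gg ggg i0 g0 gg0 ggg0 ho (by
        intro r hr
        rw [hc] at hr
        exact h.f_block j hr) hs hi
    have e1 : G f j + c = G f (j + 1) := by rw [G_succ, hc]
    rw [e1] at h1 h2 h3
    exact ih (j + 1) hseg' _ _ _ _ _ _ _ h3 h1 h2

lemma IsGolomb.fine (h : IsGolomb f) {P : ℕ → Prop}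
    (hP1 : ∀ L x : ℕ, ckM L x = true → x = G f (G f 1068) → L = G f x → P x)
    (hP2 : ∀ L0 s x0 x n : ℕ, ckM (L0 + s * (x - x0)) x = true → G f (G f 1068) ≤ x0 → x0 < x →
      P x0 → L0 = G f x0 → s = f (x0 + 1) → x0 ≤ n → n ≤ x → P n) :
    ∀ n, 39049185 ≤ n → n ≤ 15767500000 → P n := by
  intro n hn1 hn2
  rw [← h.GG1068] at hn1
  have hs : St f (G f 0) 0 0 0 := by simp [St]
  refine h.outerM_spec hP1 hP2 bl 0 h.bl_seg 0 0 0 0 0 0 0 (by simpa using checkM) hs ?_ n hn1 hn2
  refine ⟨by simp [St], by simp, by simp, by simp, ?_⟩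
  intro n h1 h2
  have : 1068 ≤ G f (G f 1068) := (h.le_G _).trans (h.le_G _)
  omega

end Pool.Agent.H517R2.Golomb
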