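import Mathlib
import Pool.Agent.H517R2.Golomb.Basic

set_option autoImplicit false

namespace Pool.Agent.H517R2.Golomb

open Real

/-- The golden ratio. -/
noncomputable def ph : ℝ := (1 + √5) / 2

lemma sqrt5_bounds : 2.2360679774 < √5 ∧ √5 < 2.2360679776 := by
  constructor
  · apply Real.lt_sqrt_of_sq_lt; norm_num
  · rw [Real.sqrt_lt' (by norm_num)]; norm_num

lemma ph_sq : ph ^ 2 = ph + 1 := by
  have h : √5 ^ 2 = 5 := Real.sq_sqrt (by norm_num)
  unfold ph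
  nlinarith [h]

lemma ph_gt : 1.6180339887 < ph := by
  have := sqrt5_bounds.1
  unfold ph; linarith

lemma ph_lt : ph < 1.6180339888 := by
  have := sqrt5_bounds.2
  unfold ph; linarith

lemma ph_pos : 0 < ph := by linarith [ph_gt]
lemma ph_gt_one : 1 < ph := by linarith [ph_gt]

/-- `1/φ = φ - 1`. -/
lemma inv_ph : ph⁻¹ = ph - 1 := by
  have h := ph_sq
  have hp := ph_pos
  field_simp
  nlinarith

/-- The logarithmic coordinate `z(x) = log x - log φ`. -/
noncomputable def zz (x : ℝ) : ℝ := Real.log x - Real.log ph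

lemma zz_mono {x y : ℝ} (hx : 0 < x) (h : x ≤ y) : zz x ≤ zz y := by
  unfold zz; linarith [Real.log_le_log hx h]

lemma zz_lt {x y : ℝ} (hx : 0 < x) (h : x < y) : zz x < zz y := by
  unfold zz; linarith [Real.log_lt_log hx h]

lemma ph_mul_exp_zz {x : ℝ} (hx : 0 < x) : ph * Real.exp (zz x) = x := by
  unfold zz
  rw [Real.exp_sub, Real.exp_log hx, Real.exp_log ph_pos]
  field_simp [ph_pos.ne']

lemma zz_ph_mul_exp (u : ℝ) : zz (ph * Real.exp u) = u := by
  unfold zz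
  rw [Real.log_mul ph_pos.ne' (Real.exp_pos u).ne', Real.log_exp]
  ring

/-- `Θ(n) = log G(n) - log φ - φ z(n)`. -/
noncomputable def Th (f : ℕ → ℕ) (n : ℕ) : ℝ := zz (G f n) - ph * zz n

variable {f : ℕ → ℕ}

lemma IsGolomb.G_pos (h : IsGolomb f) {n : ℕ} (hn : 1 ≤ n) : 0 < G f n :=
  lt_of_lt_of_le (by omega) (h.le_G n)

/-- Lower bound for `f n` from an upper bound for `G`. -/
lemma IsGolomb.f_ge_of (h : IsGolomb f) {n : ℕ} (hn : 1 ≤ n) {y : ℝ}
    (hG : (G f (⌈y⌉₊ - 1) : ℝ) < n) : y ≤ f n := by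
  by_contra hlt
  push Not at hlt
  have h1 : f n < ⌈y⌉₊ := by
    rw [Nat.lt_ceil]; exact hlt
  have h2 : n ≤ G f (f n) := (h.le_iff hn _).1 le_rfl
  have h3 : G f (f n) ≤ G f (⌈y⌉₊ - 1) := h.G_mono (by omega)
  have h4 : (n : ℝ) ≤ G f (⌈y⌉₊ - 1) := by exact_mod_cast h2.trans h3
  linarith

/-- Upper bound for `f n` from a lower bound for `G`. -/
lemma IsGolomb.f_le_of (h : IsGolomb f) {n : ℕ} (hn : 1 ≤ n) {y : ℝ} (hy : 1 < y)
    (hG : (n : ℝ) - 1 < G f (⌈y⌉₊ - 1)) : (f n : ℝ) ≤ y := by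
  by_contra hlt
  push Not at hlt
  have h1 : ⌈y⌉₊ ≤ f n := by
    rw [Nat.ceil_le]; exact hlt.le
  have hc : 1 ≤ ⌈y⌉₊ := by
    have : 0 < ⌈y⌉₊ := Nat.ceil_pos.2 (by linarith)
    omega
  have h2 : G f (⌈y⌉₊ - 1) < n := (h.lt_iff hn _).1 (by omega)
  have h3 : ((G f (⌈y⌉₊ - 1) : ℕ) : ℝ) + 1 ≤ n := by exact_mod_cast h2
  linarith

lemma ceil_sub_bounds {y : ℝ} (hy : 1 < y) :
    y - 1 ≤ ((⌈y⌉₊ - 1 : ℕ) : ℝ) ∧ ((⌈y⌉₊ - 1 : ℕ) : ℝ) < y ∧ 1 ≤ ⌈y⌉₊ - 1 := by
  have h1 : 1 < ⌈y⌉₊ := by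
    rw [Nat.lt_ceil]; exact_mod_cast hy
  have h2 : ((⌈y⌉₊ - 1 : ℕ) : ℝ) = (⌈y⌉₊ : ℝ) - 1 := by
    rw [Nat.cast_sub (by omega)]; simp
  rw [h2]
  refine ⟨by linarith [Nat.le_ceil y], by linarith [Nat.ceil_lt_add_one (show (0:ℝ) ≤ y by linarith)], by omega⟩

/-- The comparison function `H(x) = φ exp(φ z + g(z))`. -/
noncomputable def HH (g : ℝ → ℝ) (x : ℝ) : ℝ := ph * Real.exp (ph * zz x + g (zz x))

/-- Its derivative. -/
noncomputable def YY (g g' : ℝ → ℝ) (z : ℝ) : ℝ := ph * Real.exp (z / ph + g z) * (1 + g' z / ph)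

lemma HH_deriv {g g' : ℝ → ℝ} {x : ℝ} (hx : 0 < x) (hg : HasDerivAt g (g' (zz x)) (zz x)) :
    HasDerivAt (HH g) (YY g g' (zz x)) x := by
  have hz : HasDerivAt zz (1 / x) x := by
    have := (Real.hasDerivAt_log hx.ne').sub_const (Real.log ph)
    rw [← one_div] at this
    exact this
  have h1 : HasDerivAt (fun x => g (zz x)) (g' (zz x) * (1 / x)) x := hg.comp x hz
  have h2 : HasDerivAt (fun x => ph * zz x + g (zz x)) (ph * (1 / x) + g' (zz x) * (1 / x)) x :=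
    (hz.const_mul ph).add h1
  have h3 := (h2.exp).const_mul ph
  have h4 : ph * (Real.exp (ph * zz x + g (zz x)) * (ph * (1 / x) + g' (zz x) * (1 / x))) =
      YY g g' (zz x) := by
    unfold YY
    have e1 : zz x / ph = ph * zz x - zz x := by
      rw [div_eq_mul_inv, inv_ph]; ring
    rw [e1]
    have e2 : ph * zz x - zz x + g (zz x) = (ph * zz x + g (zz x)) - zz x := by ring
    rw [e2, Real.exp_sub]
    have e3 := ph_mul_exp_zz hx
    have e4 : Real.exp (zz x) = x / ph := by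
      rw [eq_div_iff ph_pos.ne', mul_comm]; exact e3
    rw [e4]
    field_simp [ph_pos.ne']
  rw [h4] at h3
  exact h3

/-- Lower step. -/
lemma step_lower {n : ℕ} (hn : 2 ≤ n) {g g' : ℝ → ℝ}
    (hg : ∀ x : ℝ, (n : ℝ) - 1 ≤ x → x ≤ n → HasDerivAt g (g' (zz x)) (zz x))
    (hprev : HH g ((n : ℝ) - 1) ≤ G f (n - 1))
    (hf : ∀ x : ℝ, (n : ℝ) - 1 < x → x < n → YY g g' (zz x) ≤ f n) :
    HH g n ≤ G f n := by
  have hn' : (2 : ℝ) ≤ n := by exact_mod_cast hn
  have hd : ∀ x : ℝ, (n : ℝ) - 1 ≤ x → x ≤ n → HasDerivAt (HH g) (YY g g' (zz x)) x := by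
    intro x h1 h2
    exact HH_deriv (by linarith) (hg x h1 h2)
  obtain ⟨c, hc, hc2⟩ := exists_hasDerivAt_eq_slope (HH g) (fun x => YY g g' (zz x))
    (show (n : ℝ) - 1 < n by linarith)
    (fun x hx => (hd x hx.1 hx.2).continuousAt.continuousWithinAt)
    (fun x hx => hd x hx.1.le hx.2.le)
  have h3 := hf c hc.1 hc.2
  have h4 : HH g n = HH g ((n : ℝ) - 1) + YY g g' (zz c) := by
    have : (n : ℝ) - (n - 1) = 1 := by ring
    simp only [this, div_one] at hc2
    linarith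
  obtain ⟨m, rfl⟩ : ∃ m, n = m + 1 := ⟨n - 1, by omega⟩
  rw [G_succ]
  push_cast at *
  simp only [add_sub_cancel_right] at *
  linarith

/-- Upper step. -/
lemma step_upper {n : ℕ} (hn : 2 ≤ n) {g g' : ℝ → ℝ}
    (hg : ∀ x : ℝ, (n : ℝ) - 1 ≤ x → x ≤ n → HasDerivAt g (g' (zz x)) (zz x))
    (hprev : (G f (n - 1) : ℝ) ≤ HH g ((n : ℝ) - 1))
    (hf : ∀ x : ℝ, (n : ℝ) - 1 < x → x < n → (f n : ℝ) ≤ YY g g' (zz x)) :
    (G f n : ℝ) ≤ HH g n := by
  have hn' : (2 : ℝ) ≤ n := by exact_mod_cast hn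
  have hd : ∀ x : ℝ, (n : ℝ) - 1 ≤ x → x ≤ n → HasDerivAt (HH g) (YY g g' (zz x)) x := by
    intro x h1 h2
    exact HH_deriv (by linarith) (hg x h1 h2)
  obtain ⟨c, hc, hc2⟩ := exists_hasDerivAt_eq_slope (HH g) (fun x => YY g g' (zz x))
    (show (n : ℝ) - 1 < n by linarith)
    (fun x hx => (hd x hx.1 hx.2).continuousAt.continuousWithinAt)
    (fun x hx => hd x hx.1.le hx.2.le)
  have h3 := hf c hc.1 hc.2
  have h4 : HH g n = HH g ((n : ℝ) - 1) + YY g g' (zz c) := by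
    have : (n : ℝ) - (n - 1) = 1 := by ring
    simp only [this, div_one] at hc2
    linarith
  obtain ⟨m, rfl⟩ : ∃ m, n = m + 1 := ⟨n - 1, by omega⟩
  rw [G_succ]
  push_cast at *
  simp only [add_sub_cancel_right] at *
  linarith

lemma HH_le_iff {g : ℝ → ℝ} (h : IsGolomb f) {n : ℕ} (hn : 1 ≤ n) :
    HH g n ≤ G f n ↔ g (zz n) ≤ Th f n := by
  have hG : (0 : ℝ) < G f n := by exact_mod_cast h.G_pos hn
  have e := ph_mul_exp_zz hG
  unfold HH Th
  conv_lhs => rw [← e]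
  rw [mul_le_mul_iff_right₀ ph_pos, Real.exp_le_exp]
  constructor <;> intro h1 <;> linarith

lemma le_HH_iff {g : ℝ → ℝ} (h : IsGolomb f) {n : ℕ} (hn : 1 ≤ n) :
    (G f n : ℝ) ≤ HH g n ↔ Th f n ≤ g (zz n) := by
  have hG : (0 : ℝ) < G f n := by exact_mod_cast h.G_pos hn
  have e := ph_mul_exp_zz hG
  unfold HH Th
  conv_lhs => rw [← e]
  rw [mul_le_mul_iff_right₀ ph_pos, Real.exp_le_exp]
  constructor <;> intro h1 <;> linarith


lemma log_one_add_bounds {t : ℝ} (ht : |t| ≤ 1 / 10) :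
    t - 6 / 5 * t ^ 2 ≤ Real.log (1 + t) ∧ Real.log (1 + t) ≤ t := by
  have h1 : -(1/10) ≤ t := (abs_le.1 ht).1
  have h2 : t ≤ 1/10 := (abs_le.1 ht).2
  have hp : 0 < 1 + t := by linarith
  constructor
  · have h3 := Real.one_sub_inv_le_log_of_pos hp
    have h4 : t - 6 / 5 * t ^ 2 ≤ 1 - (1 + t)⁻¹ := by
      have h5 : 1 - (1 + t)⁻¹ = t / (1 + t) := by field_simp; ring
      rw [h5, le_div_iff₀ hp]
      nlinarith [sq_nonneg t, mul_nonneg (sq_nonneg t) (show (0:ℝ) ≤ 1/10 + t by linarith)]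
    linarith
  · have := Real.log_le_sub_one_of_pos hp
    linarith

/-- Bounds for `log` of the derivative of the comparison function. `B` is the value of `g`, `D` the value of
`g'`. -/
lemma yy_bounds {z B D : ℝ} (hz : Real.exp (-(z / ph)) ≤ 1 / 1000) (hB : |B| ≤ 3 / 100)
    (hD : |D| ≤ 2 / 100) :
    ∃ y : ℝ, y = ph * Real.exp (z / ph + B) * (1 + D / ph) ∧ 100 < y ∧
      zz y = z / ph + B + Real.log (1 + D / ph) ∧
      zz y - (12 / 10) / ph * Real.exp (-(z / ph)) ≤ zz (y - 1) := by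
  have hp := ph_pos
  have hp1 := ph_gt
  have hp2 := ph_lt
  have hDp : |D / ph| ≤ 2 / 100 := by
    rw [abs_div, abs_of_pos hp, div_le_iff₀ hp]
    nlinarith
  have hD1 := (abs_le.1 hDp).1
  have hD2 := (abs_le.1 hDp).2
  have hB1 := (abs_le.1 hB).1
  have hB2 := (abs_le.1 hB).2
  have hpos : 0 < 1 + D / ph := by linarith
  refine ⟨_, rfl, ?_, ?_, ?_⟩
  · -- 100 < y
    have h1 : (1000 : ℝ) ≤ Real.exp (z / ph) := by
      rw [Real.exp_neg] at hz
      have hpos2 := Real.exp_pos (z / ph)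
      rw [inv_le_comm₀ hpos2 (by norm_num)] at hz
      norm_num at hz
      exact hz
    have h2 : 1 + B ≤ Real.exp B := by linarith [Real.add_one_le_exp B]
    have h3 : (97 / 100 : ℝ) ≤ Real.exp B := by linarith
    rw [Real.exp_add]
    have h4 : (970 : ℝ) ≤ Real.exp (z / ph) * Real.exp B := by nlinarith
    have h5 : (1552 : ℝ) ≤ ph * (Real.exp (z / ph) * Real.exp B) := by nlinarith
    have h6 : (98 / 100 : ℝ) ≤ 1 + D / ph := by linarith
    nlinarith
  · unfold zz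
    rw [Real.log_mul (by positivity) hpos.ne', Real.log_mul hp.ne' (Real.exp_pos _).ne',
      Real.log_exp]
    ring
  · set y := ph * Real.exp (z / ph + B) * (1 + D / ph) with hy
    -- y ≥ ph * exp (z/ph) * (97/100) * (98/100)
    have hE := Real.exp_pos (z / ph)
    have hylow : ph * (95 / 100) * Real.exp (z / ph) ≤ y := by
      rw [hy, Real.exp_add]
      have h2 : 1 + B ≤ Real.exp B := by linarith [Real.add_one_le_exp B]
      have h3 : (97 / 100 : ℝ) ≤ Real.exp B := by linarith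
      have h6 : (98 / 100 : ℝ) ≤ 1 + D / ph := by linarith
      have h7 : (95 / 100 : ℝ) ≤ Real.exp B * (1 + D / ph) := by nlinarith
      have h8 : 0 < ph * Real.exp (z / ph) := by positivity
      nlinarith
    have hinv : Real.exp (-(z / ph)) = 1 / Real.exp (z / ph) := by
      rw [Real.exp_neg, one_div]
    have hE1 : (1000 : ℝ) ≤ Real.exp (z / ph) := by
      rw [hinv] at hz
      rw [div_le_iff₀ hE] at hz
      linarith
    have hy1 : (1000 : ℝ) ≤ y := by nlinarith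
    have hy0 : 0 < y := by linarith
    have h1 : 1 / y ≤ 1 / (95 / 100 * ph) * Real.exp (-(z / ph)) := by
      rw [hinv, div_mul_div_comm, one_mul, div_le_div_iff₀ hy0 (by positivity)]
      nlinarith
    have h2 := (log_one_add_bounds (t := -(1 / y)) (by
      rw [abs_neg, abs_of_pos (by positivity), div_le_iff₀ hy0]; linarith)).1
    have h3 : zz (y - 1) = zz y + Real.log (1 + -(1 / y)) := by
      unfold zz
      have : y - 1 = y * (1 + -(1 / y)) := by field_simp; ring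
      rw [this, Real.log_mul hy0.ne']
      · ring
      · have : 1 / y < 1 := by rw [div_lt_iff₀ hy0]; linarith
        linarith
    rw [h3]
    have h4 : 1 / y ≤ 1 / 1000 := by
      apply one_div_le_one_div_of_le (by norm_num) hy1
    have h5 : (1 / y) ^ 2 ≤ 1 / 1000 * (1 / y) := by
      have : 0 ≤ 1 / y := by positivity
      nlinarith
    have h6 : 1 / (95 / 100 * ph) = (100 / 95) / ph := by field_simp
    rw [h6] at h1
    have hE2 := Real.exp_pos (-(z / ph))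
    have h7 : (100 / 95) / ph * Real.exp (-(z / ph)) = (100 / 95) * (Real.exp (-(z / ph)) / ph) := by
      field_simp
    have h8 : (12 / 10) / ph * Real.exp (-(z / ph)) = (12 / 10) * (Real.exp (-(z / ph)) / ph) := by
      field_simp
    have h9 : 0 < Real.exp (-(z / ph)) / ph := by positivity
    rw [h7] at h1
    rw [h8]
    nlinarith

end Pool.Agent.H517R2.Golomb
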