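import Mathlib
import Pool.Agent.H517R2.Golomb.Step
import Pool.Agent.H517R2.Golomb.Spec

set_option autoImplicit false

namespace Pool.Agent.H517R2.Golomb

open Real

variable {f : ℕ → ℕ}

lemma ph_pow (n : ℕ) : ph ^ (n + 1) = ph * Nat.fib (n + 1) + Nat.fib n := by
  have h : ph = Real.goldenRatio := rfl
  rw [h]
  exact (Real.goldenRatio_mul_fib_succ_add_fib n).symm

lemma zz_nonneg {x : ℝ} (hx : 2 ≤ x) : 0 ≤ zz x := by
  unfold zz
  have : Real.log ph ≤ Real.log x := Real.log_le_log ph_pos (by linarith [ph_lt])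
  linarith

/-- upper check -/
lemma upA {g G1 : ℕ} (hg : 2 ≤ g) (hG : 1 ≤ G1)
    (h : G1 ^ 89 * (16181 * Nat.fib 55 + 10000 * Nat.fib 54) ≤ 67000 * g ^ 144) :
    zz G1 ≤ 214 / 10000 + ph * zz g := by
  have hg' : (2 : ℝ) ≤ g := by exact_mod_cast hg
  have hG' : (1 : ℝ) ≤ G1 := by exact_mod_cast hG
  have h1 : ((G1 : ℝ) ^ 89 * (16181 * Nat.fib 55 + 10000 * Nat.fib 54)) ≤ 67000 * (g : ℝ) ^ 144 := by
    exact_mod_cast h
  have h2 : 10000 * ph ^ 55 ≤ 16181 * (Nat.fib 55 : ℝ) + 10000 * Nat.fib 54 := by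
    rw [ph_pow 54]
    have : (0 : ℝ) ≤ Nat.fib (54 + 1) := Nat.cast_nonneg _
    have h3 : (Nat.fib (54 + 1) : ℝ) = Nat.fib 55 := rfl
    rw [h3] at this ⊢
    nlinarith [ph_lt]
  have h3 : (G1 : ℝ) ^ 89 * ph ^ 55 ≤ (67 / 10) * (g : ℝ) ^ 144 := by
    have : (G1 : ℝ) ^ 89 * (10000 * ph ^ 55) ≤ 67000 * (g : ℝ) ^ 144 :=
      le_trans (mul_le_mul_of_nonneg_left h2 (by positivity)) h1
    linarith
  have hp := ph_pos
  have h4 := Real.log_le_log (by positivity) h3
  rw [Real.log_mul (by positivity) (by positivity), Real.log_pow, Real.log_pow,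
    Real.log_mul (by norm_num) (by positivity), Real.log_pow] at h4
  have h5 : Real.log (67 / 10) ≤ 19046 / 10000 := by
    rw [Real.log_le_iff_le_exp (by norm_num)]
    have := Real.sum_le_exp_of_nonneg (x := 19046 / 10000) (by norm_num) 12
    refine le_trans ?_ this
    simp only [Finset.sum_range_succ, Finset.sum_range_zero, Nat.factorial]
    norm_num
  have hz := zz_nonneg hg'
  have h6 : 89 * zz G1 ≤ 19046 / 10000 + 144 * zz g := by
    unfold zz
    push_cast at h4
    linarith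
  have h7 : (144 / 89 : ℝ) * zz g ≤ ph * zz g := by
    apply mul_le_mul_of_nonneg_right _ hz
    linarith [ph_gt]
  linarith

/-- lower check -/
lemma loA {g G0 : ℕ} (hg : 2 ≤ g) (hG : 1 ≤ G0)
    (h : 10000 * g ^ 233 ≤ G0 ^ 144 * (1618 * Nat.fib 89 + 1000 * Nat.fib 88) * 215) :
    -(214 / 10000) + ph * zz g ≤ zz G0 := by
  have hg' : (2 : ℝ) ≤ g := by exact_mod_cast hg
  have hG' : (1 : ℝ) ≤ G0 := by exact_mod_cast hG
  have h1 : 10000 * (g : ℝ) ^ 233 ≤
      (G0 : ℝ) ^ 144 * (1618 * Nat.fib 89 + 1000 * Nat.fib 88) * 215 := by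
    exact_mod_cast h
  have h2 : 1618 * (Nat.fib 89 : ℝ) + 1000 * Nat.fib 88 ≤ 1000 * ph ^ 89 := by
    rw [ph_pow 88]
    have : (0 : ℝ) ≤ Nat.fib (88 + 1) := Nat.cast_nonneg _
    have h3 : (Nat.fib (88 + 1) : ℝ) = Nat.fib 89 := rfl
    rw [h3] at this ⊢
    nlinarith [ph_gt]
  have hp := ph_pos
  have h3 : (g : ℝ) ^ 233 ≤ (G0 : ℝ) ^ 144 * ph ^ 89 * (215 / 10) := by
    have : (G0 : ℝ) ^ 144 * (1618 * Nat.fib 89 + 1000 * Nat.fib 88) * 215 ≤
        (G0 : ℝ) ^ 144 * (1000 * ph ^ 89) * 215 := by gcongr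
    linarith
  have h4 := Real.log_le_log (by positivity) h3
  rw [Real.log_mul (by positivity) (by positivity), Real.log_mul (by positivity) (by positivity),
    Real.log_pow, Real.log_pow, Real.log_pow] at h4
  have h5 : Real.log (215 / 10) ≤ 30816 / 10000 := by
    rw [Real.log_le_iff_le_exp (by norm_num)]
    have := Real.sum_le_exp_of_nonneg (x := 30816 / 10000) (by norm_num) 14
    refine le_trans ?_ this
    simp only [Finset.sum_range_succ, Finset.sum_range_zero, Nat.factorial]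
    norm_num
  have hz := zz_nonneg hg'
  have h6 : 233 * zz g ≤ 30816 / 10000 + 144 * zz G0 := by
    unfold zz
    push_cast at h4
    linarith
  have h7 : ph * zz g ≤ (233 / 144 : ℝ) * zz g := by
    apply mul_le_mul_of_nonneg_right _ hz
    linarith [ph_lt]
  linarith

/-- Coarse base case. -/
lemma IsGolomb.baseA (h : IsGolomb f) {n : ℕ} (h1 : 2215 < n) (h2 : n ≤ 263722) :
    |Th f n| ≤ 214 / 10000 := by
  obtain ⟨m, hm⟩ : ∃ m, f n = m + 1 := ⟨f n - 1, by have := h.pos (n := n) (by omega); omega⟩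
  have hm1 : G f m < n := (h.lt_iff (by omega) m).1 (by omega)
  have hm2 : n ≤ G f (m + 1) := (h.le_iff (by omega) (m + 1)).1 (by omega)
  have hm3 : 140 ≤ m := by
    by_contra hc
    have : G f (m + 1) ≤ G f 140 := h.G_mono (by omega)
    rw [h.G140] at this
    omega
  have hm4 : m < 2692 := by
    by_contra hc
    have : G f 2692 ≤ G f m := h.G_mono (by omega)
    rw [h.G2692] at this
    omega
  have hck := h.ckA_true hm4
  unfold ckA at hck
  rw [Nat.ble_eq_true_of_le hm3, cond_true, Bool.and_eq_true] at hck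
  have c1 := Nat.le_of_ble_eq_true hck.1
  have c2 := Nat.le_of_ble_eq_true hck.2
  have hGm : 2 ≤ G f m := by
    have := h.le_G m
    omega
  have hGm1 : 2 ≤ G f (m + 1) := by
    have := h.le_G (m + 1)
    omega
  have u1 := upA hGm (h.G_pos (by omega)) c1
  have u2 := loA hGm1 (h.G_pos (by omega)) c2
  have hn0 : (0 : ℝ) < n := by exact_mod_cast (show 0 < n by omega)
  have e1 : zz (G f n) ≤ zz (G f (G f (m + 1))) :=
    zz_mono (by exact_mod_cast h.G_pos (by omega)) (by exact_mod_cast h.G_mono hm2)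
  have e2 : zz (G f (G f m)) ≤ zz (G f n) :=
    zz_mono (by exact_mod_cast h.G_pos (by omega)) (by exact_mod_cast h.G_mono hm1.le)
  have e3 : zz (G f m) ≤ zz n :=
    zz_mono (by exact_mod_cast (show 0 < G f m by omega)) (by exact_mod_cast hm1.le)
  have e4 : zz n ≤ zz (G f (m + 1)) :=
    zz_mono hn0 (by exact_mod_cast hm2)
  have hp := ph_pos
  have e5 := mul_le_mul_of_nonneg_left e3 hp.le
  have e6 := mul_le_mul_of_nonneg_left e4 hp.le
  unfold Th
  rw [abs_le]
  constructor <;> linarith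

/-- The constant `λ` of the fine base case. -/
noncomputable def lam : ℝ := 765 / 10000000

/-- semantic content of the fine check -/
lemma ckM_sound {L x : ℕ} (hx : 2 ≤ x) (hL : 1 ≤ L) (h : ckM L x = true) :
    lam + ph * zz x ≤ zz L := by
  have hc := Nat.le_of_ble_eq_true h
  have hx' : (2 : ℝ) ≤ x := by exact_mod_cast hx
  have hL' : (1 : ℝ) ≤ L := by exact_mod_cast hL
  have h1 : 10785 * (x : ℝ) ^ 1597 ≤
      (L : ℝ) ^ 987 * ((1618 * Nat.fib 610 + 1000 * Nat.fib 609) * 10) := by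
    exact_mod_cast hc
  have h2 : 1618 * (Nat.fib 610 : ℝ) + 1000 * Nat.fib 609 ≤ 1000 * ph ^ 610 := by
    rw [ph_pow 609]
    have : (0 : ℝ) ≤ Nat.fib (609 + 1) := Nat.cast_nonneg _
    have h3 : (Nat.fib (609 + 1) : ℝ) = Nat.fib 610 := rfl
    rw [h3] at this ⊢
    nlinarith [ph_gt]
  have hp := ph_pos
  have h3 : (10785 / 10000) * (x : ℝ) ^ 1597 ≤ (L : ℝ) ^ 987 * ph ^ 610 := by
    have : (L : ℝ) ^ 987 * ((1618 * Nat.fib 610 + 1000 * Nat.fib 609) * 10) ≤
        (L : ℝ) ^ 987 * (1000 * ph ^ 610 * 10) := by gcongr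
    linarith
  have h4 := Real.log_le_log (by positivity) h3
  rw [Real.log_mul (by positivity) (by positivity), Real.log_mul (by positivity) (by positivity),
    Real.log_pow, Real.log_pow, Real.log_pow] at h4
  have h5 : (755055 / 10000000 : ℝ) ≤ Real.log (10785 / 10000) := by
    have := Real.le_log_one_add_of_nonneg (x := 785 / 10000) (by norm_num)
    norm_num at this ⊢
    linarith
  have hz := zz_nonneg hx'
  have h6 : 755055 / 10000000 + 1597 * zz x ≤ 987 * zz L := by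
    unfold zz
    push_cast at h4
    linarith
  have h7 : ph * zz x ≤ (1597 / 987 : ℝ) * zz x := by
    apply mul_le_mul_of_nonneg_right _ hz
    linarith [ph_lt]
  unfold lam
  linarith

/-- `h(x) = exp(λ) φ (x/φ)^φ`. -/
noncomputable def hf (x : ℝ) : ℝ := ph * Real.exp (lam + ph * zz x)

lemma hf_eq {x : ℝ} (hx : 0 < x) : hf x = (ph * Real.exp lam * ph ^ (-ph)) * x ^ ph := by
  unfold hf zz
  rw [Real.rpow_def_of_pos hx, Real.rpow_def_of_pos ph_pos, mul_assoc, mul_assoc, ← Real.exp_add,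
    ← Real.exp_add]
  congr 2
  ring

lemma hf_convex : ConvexOn ℝ (Set.Ici 0) (fun x : ℝ => (ph * Real.exp lam * ph ^ (-ph)) * x ^ ph) := by
  have h1 := convexOn_rpow (p := ph) ph_gt_one.le
  have h2 := h1.smul (c := ph * Real.exp lam * ph ^ (-ph)) (by
    have := ph_pos
    positivity)
  simpa [smul_eq_mul] using h2

lemma hf_le_iff {x : ℝ} {L : ℝ} (hL : 0 < L) : hf x ≤ L ↔ lam + ph * zz x ≤ zz L := by
  unfold hf
  conv_lhs => rw [← ph_mul_exp_zz hL]
  rw [mul_le_mul_iff_right₀ ph_pos, Real.exp_le_exp]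

lemma line_ge {a b n L s : ℝ} (ha : 0 < a) (han : a ≤ n) (hnb : n ≤ b) (hab : a < b)
    (h1 : hf a ≤ L) (h2 : hf b ≤ L + s * (b - a)) : hf n ≤ L + s * (n - a) := by
  have hc := hf_convex
  set w := (n - a) / (b - a) with hw
  have hba : 0 < b - a := by linarith
  have hw0 : 0 ≤ w := div_nonneg (by linarith) hba.le
  have hw1 : w ≤ 1 := by rw [hw, div_le_one hba]; linarith
  have hn : n = (1 - w) * a + w * b := by
    rw [hw]; field_simp; ring
  have h3 := hc.2 (show a ∈ Set.Ici 0 from ha.le) (show b ∈ Set.Ici 0 from (ha.trans hab).le)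
    (show 0 ≤ 1 - w by linarith) hw0 (by ring)
  simp only [smul_eq_mul] at h3
  rw [← hn] at h3
  rw [hf_eq (by linarith)]
  rw [hf_eq ha] at h1
  rw [hf_eq (ha.trans hab)] at h2
  have h4 : w * (b - a) = n - a := by rw [hw]; field_simp
  calc _ ≤ _ := h3
    _ ≤ (1 - w) * L + w * (L + s * (b - a)) := by
        have := mul_le_mul_of_nonneg_left h1 (show 0 ≤ 1 - w by linarith)
        have := mul_le_mul_of_nonneg_left h2 hw0
        linarith
    _ = L + s * (n - a) := by rw [← h4]; ring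

/-- Fine base case. -/
lemma IsGolomb.baseM (h : IsGolomb f) {n : ℕ} (h1 : 39049185 ≤ n) (h2 : n ≤ 15767500000) :
    lam ≤ Th f n := by
  have key := h.fine (P := fun n => lam + ph * zz n ≤ zz (G f n)) ?_ ?_ n h1 h2
  · unfold Th; linarith
  · intro L x hck hx hL
    have hx2 : 2 ≤ x := by
      rw [hx, h.GG1068]; norm_num
    rw [← hL]
    exact ckM_sound hx2 (by rw [hL]; exact h.G_pos (by omega)) hck
  · intro L0 s x0 x n hck hx0 hx hP hL0 hs hn1 hn2
    rw [h.GG1068] at hx0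
    have hx0' : (0 : ℝ) < x0 := by exact_mod_cast (show 0 < x0 by omega)
    have hL0pos : 0 < L0 := by rw [hL0]; exact h.G_pos (by omega)
    have hL0pos' : (0 : ℝ) < L0 := by exact_mod_cast hL0pos
    have b1 := ckM_sound (by omega) (by omega) hck
    have hcast : ((L0 + s * (x - x0) : ℕ) : ℝ) = L0 + s * ((x : ℝ) - x0) := by
      push_cast [Nat.cast_sub hx.le]; ring
    rw [hcast] at b1
    have hs0 : (0 : ℝ) ≤ s := Nat.cast_nonneg s
    have hxx : (x0 : ℝ) < x := by exact_mod_cast hx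
    have hpos2 : 0 < (L0 : ℝ) + s * ((x : ℝ) - x0) := by
      have := mul_nonneg hs0 (show (0 : ℝ) ≤ x - x0 by linarith)
      linarith
    rw [← hf_le_iff hpos2] at b1
    have b0 : hf x0 ≤ L0 := by
      rw [hf_le_iff hL0pos', hL0]; exact hP
    have hn1' : (x0 : ℝ) ≤ n := by exact_mod_cast hn1
    have hn2' : (n : ℝ) ≤ x := by exact_mod_cast hn2
    have b2 := line_ge hx0' hn1' hn2' hxx b0 b1
    have b3 : (L0 : ℝ) + s * ((n : ℝ) - x0) ≤ G f n := by
      have := h.tangent x0 (n - x0)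
      rw [← hL0, ← hs] at this
      have e : x0 + (n - x0) = n := by omega
      rw [e] at this
      have h5 : ((L0 + s * (n - x0) : ℕ) : ℝ) ≤ G f n := by exact_mod_cast this
      have h6 : ((L0 + s * (n - x0) : ℕ) : ℝ) = L0 + s * ((n : ℝ) - x0) := by
        push_cast [Nat.cast_sub hn1]; ring
      linarith
    rw [← hf_le_iff (by exact_mod_cast h.G_pos (by omega))]
    linarith

end Pool.Agent.H517R2.Golomb
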