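import Mathlib
import Pool.Agent.H517R2.Golomb.Step

set_option autoImplicit false

namespace Pool.Agent.H517R2.Golomb

open Real

variable {f : ℕ → ℕ}

/-- The allowed error. -/
noncomputable def epsE (b b' : ℝ → ℝ) (z : ℝ) : ℝ := |b z| + |b' z| + Real.exp (-(z / ph))

lemma log_abs_bound {D : ℝ} (hD : |D| ≤ 2 / 100) :
    |Real.log (1 + D / ph)| ≤ |D| ∧ Real.log (1 + D / ph) ≤ D / ph ∧
      D / ph - D ^ 2 / ph ≤ Real.log (1 + D / ph) := by
  have hp := ph_pos
  have hp1 := ph_gt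
  have hDp : |D / ph| ≤ 2 / 100 := by
    rw [abs_div, abs_of_pos hp, div_le_iff₀ hp]
    nlinarith
  obtain ⟨h1, h2⟩ := log_one_add_bounds (t := D / ph) (by linarith)
  have h3 : (D / ph) ^ 2 * (6 / 5) ≤ D ^ 2 / ph := by
    rw [div_pow, div_mul_eq_mul_div, div_le_div_iff₀ (by positivity) hp]
    have : D ^ 2 * (6 / 5) * ph ≤ D ^ 2 * ph ^ 2 := by
      have : (6 / 5 : ℝ) * ph ≤ ph ^ 2 := by nlinarith
      nlinarith [mul_le_mul_of_nonneg_left this (sq_nonneg D)]
    linarith
  refine ⟨?_, h2, by linarith⟩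
  have h4 : (D / ph) ^ 2 * (6 / 5) ≤ |D / ph| * (1 / 20) := by
    rw [← sq_abs (D / ph)]
    nlinarith [abs_nonneg (D / ph)]
  have h5 : |D / ph| * (21 / 20) ≤ |D| := by
    rw [abs_div, abs_of_pos hp, div_mul_eq_mul_div, div_le_iff₀ hp]
    nlinarith [abs_nonneg D]
  rw [abs_le]
  constructor
  · have := neg_abs_le (D / ph)
    nlinarith [abs_nonneg (D / ph)]
  · have := le_abs_self (D / ph)
    nlinarith [abs_nonneg (D / ph)]

lemma zz_sub_abs {x y w e : ℝ} (h1 : w - e ≤ x) (h2 : y ≤ w + e) (u : ℝ) (hu1 : x ≤ u) (hu2 : u ≤ y) :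
    |u - w| ≤ e := by
  rw [abs_le]; constructor <;> linarith

/-- Step lemma: an upper bound `-b_old` for `Θ` on the lower scale gives a lower bound `b` for `Θ`. -/
lemma IsGolomb.step_lower' (h : IsGolomb f) {n : ℕ} (hn : 2 ≤ n) {b b' bo : ℝ → ℝ}
    (hb : ∀ x : ℝ, (n : ℝ) - 1 ≤ x → x ≤ n → HasDerivAt b (b' (zz x)) (zz x))
    (hexp : Real.exp (-(zz ((n : ℝ) - 1) / ph)) ≤ 1 / 1000)
    (hB : ∀ x : ℝ, (n : ℝ) - 1 < x → x < n → |b (zz x)| ≤ 3 / 100 ∧ |b' (zz x)| ≤ 2 / 100)
    (key : ∀ x : ℝ, (n : ℝ) - 1 < x → x < n → ∀ e : ℝ, |e| ≤ epsE b b' (zz x) →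
      ph * b (zz x) + b' (zz x) + b' (zz x) ^ 2 + 13 / 10 * Real.exp (-(zz x / ph)) ≤
        bo (zz x / ph + e))
    (old : ∀ x : ℝ, (n : ℝ) - 1 < x → x < n → ∀ j : ℕ, 1 ≤ j →
      |zz j - zz x / ph| ≤ epsE b b' (zz x) → bo (zz j) ≤ - Th f j)
    (hprev : b (zz ((n : ℝ) - 1)) ≤ Th f (n - 1)) :
    b (zz n) ≤ Th f n := by
  have hp := ph_pos
  have hn' : (2 : ℝ) ≤ n := by exact_mod_cast hn
  have hcast : ((n - 1 : ℕ) : ℝ) = (n : ℝ) - 1 := by push_cast [Nat.cast_sub (show 1 ≤ n by omega)]; ring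
  rw [← HH_le_iff h (by omega)]
  apply step_lower hn hb
  · have := (HH_le_iff (g := b) h (n := n - 1) (by omega)).2 (by rw [hcast]; exact hprev)
    rw [hcast] at this
    exact this
  intro x hx1 hx2
  have hx0 : 0 < x := by linarith
  set z := zz x with hz
  have hzge : zz ((n : ℝ) - 1) ≤ z := zz_mono (by linarith) hx1.le
  have hexp' : Real.exp (-(z / ph)) ≤ 1 / 1000 := by
    refine le_trans ?_ hexp
    apply Real.exp_le_exp.2
    have := div_le_div_of_nonneg_right hzge hp.le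
    linarith
  obtain ⟨hB1, hB2⟩ := hB x hx1 hx2
  obtain ⟨y, hy, hy100, hzy, hzy1⟩ := yy_bounds hexp' hB1 hB2
  obtain ⟨hl1, hl2, hl3⟩ := log_abs_bound hB2
  have hYY : YY b b' z = y := by rw [hy]; rfl
  rw [hYY]
  obtain ⟨hc1, hc2, hc3⟩ := ceil_sub_bounds (y := y) (by linarith)
  apply h.f_ge_of (by omega)
  set j := ⌈y⌉₊ - 1 with hj
  have hj0 : (0 : ℝ) < j := by exact_mod_cast (show 0 < j by omega)
  have hu1 : zz (y - 1) ≤ zz j := zz_mono (by linarith) hc1
  have hu2 : zz j ≤ zz y := zz_mono hj0 hc2.le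
  have hEpos := Real.exp_pos (-(z / ph))
  have h12 : 12 / 10 / ph * Real.exp (-(z / ph)) ≤ Real.exp (-(z / ph)) := by
    have : 12 / 10 / ph ≤ 1 := by rw [div_le_one hp]; linarith [ph_gt]
    nlinarith
  have he : |zz j - z / ph| ≤ epsE b b' z := by
    unfold epsE
    apply zz_sub_abs (x := zz (y - 1)) (y := zz y) _ _ _ hu1 hu2
    · have := neg_abs_le (b z)
      have := neg_abs_le (Real.log (1 + b' z / ph))
      linarith
    · have := le_abs_self (b z)
      have := le_abs_self (Real.log (1 + b' z / ph))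
      linarith
  have hold := old x hx1 hx2 j hc3 he
  have hkey := key x hx1 hx2 _ he
  rw [show zz x / ph + (zz (j : ℝ) - z / ph) = zz j by rw [← hz]; ring] at hkey
  -- now zz (G j) = ph * zz j + Th j ≤ z
  have hG0 : (0 : ℝ) < G f j := by exact_mod_cast h.G_pos hc3
  have h5 : zz (G f j) < zz n := by
    have e1 : zz (G f j) = ph * zz j + Th f j := by unfold Th; ring
    have e2 : ph * zz j ≤ ph * zz y := by nlinarith
    have e3 : ph * zz y = z + ph * b z + ph * Real.log (1 + b' z / ph) := by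
      rw [hzy]; simp only [← hz]; field_simp
    have e4 : ph * Real.log (1 + b' z / ph) ≤ b' z := by
      have := mul_le_mul_of_nonneg_left hl2 hp.le
      have e5 : ph * (b' z / ph) = b' z := by field_simp
      linarith
    have e6 : z < zz n := zz_lt hx0 hx2
    have e7 := sq_nonneg (b' z)
    have e8 : ph * b z + b' z ≤ bo (zz j) := by
      rw [← hz] at hkey
      linarith
    linarith
  by_contra hcon
  push Not at hcon
  have : zz n ≤ zz (G f j) := zz_mono (by linarith) hcon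
  linarith

/-- Step lemma: a lower bound `b_old` for `Θ` on the lower scale gives an upper bound `-b` for `Θ`. -/
lemma IsGolomb.step_upper' (h : IsGolomb f) {n : ℕ} (hn : 2 ≤ n) {b b' bo : ℝ → ℝ}
    (hb : ∀ x : ℝ, (n : ℝ) - 1 ≤ x → x ≤ n → HasDerivAt b (b' (zz x)) (zz x))
    (hexp : Real.exp (-(zz ((n : ℝ) - 1) / ph)) ≤ 1 / 1000)
    (hB : ∀ x : ℝ, (n : ℝ) - 1 < x → x < n → |b (zz x)| ≤ 3 / 100 ∧ |b' (zz x)| ≤ 2 / 100)
    (key : ∀ x : ℝ, (n : ℝ) - 1 < x → x < n → ∀ e : ℝ, |e| ≤ epsE b b' (zz x) →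
      ph * b (zz x) + b' (zz x) + b' (zz x) ^ 2 + 13 / 10 * Real.exp (-(zz x / ph)) ≤
        bo (zz x / ph + e))
    (old : ∀ x : ℝ, (n : ℝ) - 1 < x → x < n → ∀ j : ℕ, 1 ≤ j →
      |zz j - zz x / ph| ≤ epsE b b' (zz x) → bo (zz j) ≤ Th f j)
    (hprev : b (zz ((n : ℝ) - 1)) ≤ - Th f (n - 1)) :
    b (zz n) ≤ - Th f n := by
  have hp := ph_pos
  have hn' : (2 : ℝ) ≤ n := by exact_mod_cast hn
  have hcast : ((n - 1 : ℕ) : ℝ) = (n : ℝ) - 1 := by push_cast [Nat.cast_sub (show 1 ≤ n by omega)]; ring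
  have goal' : Th f n ≤ (fun u => - b u) (zz n) := by
    refine (le_HH_iff (g := fun u => - b u) h (by omega)).1 ?_
    apply step_upper (g := fun u => - b u) hn (g' := fun u => - b' u)
      (fun x h1 h2 => (hb x h1 h2).fun_neg)
    · have := (le_HH_iff (g := fun u => - b u) h (n := n - 1) (by omega)).2
        (by rw [hcast]; linarith)
      rw [hcast] at this
      exact this
    intro x hx1 hx2
    have hx0 : 0 < x := by linarith
    set z := zz x with hz
    have hzge : zz ((n : ℝ) - 1) ≤ z := zz_mono (by linarith) hx1.le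
    have hexp' : Real.exp (-(z / ph)) ≤ 1 / 1000 := by
      refine le_trans ?_ hexp
      apply Real.exp_le_exp.2
      have := div_le_div_of_nonneg_right hzge hp.le
      linarith
    obtain ⟨hB1, hB2⟩ := hB x hx1 hx2
    have hB1' : |-b z| ≤ 3 / 100 := by rw [abs_neg]; exact hB1
    have hB2' : |-b' z| ≤ 2 / 100 := by rw [abs_neg]; exact hB2
    obtain ⟨y, hy, hy100, hzy, hzy1⟩ := yy_bounds hexp' hB1' hB2'
    obtain ⟨hl1, hl2, hl3⟩ := log_abs_bound hB2'
    have hYY : YY (fun u => - b u) (fun u => - b' u) z = y := by rw [hy]; rfl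
    rw [hYY]
    obtain ⟨hc1, hc2, hc3⟩ := ceil_sub_bounds (y := y) (by linarith)
    apply h.f_le_of (by omega) (by linarith)
    set j := ⌈y⌉₊ - 1 with hj
    have hj0 : (0 : ℝ) < j := by exact_mod_cast (show 0 < j by omega)
    have hu1 : zz (y - 1) ≤ zz j := zz_mono (by linarith) hc1
    have hu2 : zz j ≤ zz y := zz_mono hj0 hc2.le
    have hEpos := Real.exp_pos (-(z / ph))
    have h12 : 12 / 10 / ph * Real.exp (-(z / ph)) ≤ Real.exp (-(z / ph)) := by
      have : 12 / 10 / ph ≤ 1 := by rw [div_le_one hp]; linarith [ph_gt]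
      nlinarith
    rw [abs_neg] at hl1
    have he : |zz j - z / ph| ≤ epsE b b' z := by
      unfold epsE
      apply zz_sub_abs (x := zz (y - 1)) (y := zz y) _ _ _ hu1 hu2
      · have := le_abs_self (b z)
        have := neg_abs_le (Real.log (1 + -b' z / ph))
        linarith
      · have := neg_abs_le (b z)
        have := le_abs_self (Real.log (1 + -b' z / ph))
        linarith
    have hold := old x hx1 hx2 j hc3 he
    have hkey := key x hx1 hx2 _ he
    rw [show zz x / ph + (zz (j : ℝ) - z / ph) = zz j by rw [← hz]; ring] at hkey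
    have hG0 : (0 : ℝ) < G f j := by exact_mod_cast h.G_pos hc3
    have h5 : zz ((n : ℝ) - 1) < zz (G f j) := by
      have e1 : zz (G f j) = ph * zz j + Th f j := by unfold Th; ring
      have e2 : ph * zz (y - 1) ≤ ph * zz j := by nlinarith
      have e2' : ph * zz y - 12 / 10 * Real.exp (-(z / ph)) ≤ ph * zz (y - 1) := by
        have := mul_le_mul_of_nonneg_left hzy1 hp.le
        have e5 : ph * (zz y - 12 / 10 / ph * Real.exp (-(z / ph))) =
          ph * zz y - 12 / 10 * Real.exp (-(z / ph)) := by field_simp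
        linarith
      have e3 : ph * zz y = z - ph * b z + ph * Real.log (1 + -b' z / ph) := by
        rw [hzy]; field_simp
        ring
      have e4 : - b' z - b' z ^ 2 ≤ ph * Real.log (1 + -b' z / ph) := by
        have := mul_le_mul_of_nonneg_left hl3 hp.le
        have e5 : ph * (-b' z / ph - (-b' z) ^ 2 / ph) = - b' z - b' z ^ 2 := by field_simp
        linarith
      have e6 : zz ((n : ℝ) - 1) < z := zz_lt (by linarith) hx1
      rw [← hz] at hkey
      linarith
    by_contra hcon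
    push Not at hcon
    have : zz (G f j) ≤ zz ((n : ℝ) - 1) := zz_mono hG0 hcon
    linarith
  have g2 : Th f n ≤ - b (zz n) := goal'
  linarith

end Pool.Agent.H517R2.Golomb
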