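import Mathlib
import Pool.Agent.H517R2.Golomb.Step2
import Pool.Agent.H517R2.Golomb.Base

set_option autoImplicit false

namespace Pool.Agent.H517R2.Golomb

open Real

variable {f : ℕ → ℕ}

lemma exp_nat_lower (n : ℕ) : (2.7182818283 : ℝ) ^ n ≤ Real.exp n := by
  rw [← Real.exp_one_pow]
  exact pow_le_pow_left₀ (by norm_num) Real.exp_one_gt_d9.le n

lemma exp_nat_upper (n : ℕ) : Real.exp n ≤ (2.7182818286 : ℝ) ^ n := by
  rw [← Real.exp_one_pow]
  exact pow_le_pow_left₀ (Real.exp_pos 1).le Real.exp_one_lt_d9.le n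

lemma zz_le_of {x u : ℝ} (hx : 0 < x) (h : x ≤ ph * Real.exp u) : zz x ≤ u := by
  have := zz_mono hx h
  rwa [zz_ph_mul_exp] at this

lemma le_zz_of {x u : ℝ} (h : ph * Real.exp u ≤ x) : u ≤ zz x := by
  have := zz_mono (mul_pos ph_pos (Real.exp_pos u)) h
  rwa [zz_ph_mul_exp] at this

lemma zz_N2_le : zz (263722 : ℝ) ≤ 12018 / 1000 := by
  apply zz_le_of (by norm_num)
  have h1 := exp_nat_lower 12
  have h2 : Real.exp (12018 / 1000) = Real.exp (12 : ℕ) * Real.exp (18 / 1000) := by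
    rw [← Real.exp_add]; norm_num
  have h3 : (1 + 18 / 1000 : ℝ) ≤ Real.exp (18 / 1000) := by
    linarith [Real.add_one_le_exp (18 / 1000 : ℝ)]
  rw [h2]
  have h4 : (162754 : ℝ) ≤ Real.exp (12 : ℕ) := le_trans (by norm_num) h1
  have h5 : (162754 : ℝ) * (1 + 18 / 1000) ≤ Real.exp (12 : ℕ) * Real.exp (18 / 1000) := by
    apply mul_le_mul h4 h3 (by norm_num) (Real.exp_pos _).le
  have h6 := ph_gt
  push_cast at *
  nlinarith

lemma zz_N2_ge : 12 ≤ zz (263722 : ℝ) := by
  apply le_zz_of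
  have h1 := exp_nat_upper 12
  have h4 : Real.exp (12 : ℕ) ≤ 162755 := le_trans h1 (by norm_num)
  have h6 := ph_lt
  have h7 := ph_pos
  push_cast at *
  nlinarith

lemma zz_N1_le : zz (2216 : ℝ) ≤ 73 / 10 := by
  apply zz_le_of (by norm_num)
  have h1 := exp_nat_lower 7
  have h2 : Real.exp (73 / 10) = Real.exp (7 : ℕ) * Real.exp (3 / 10) := by
    rw [← Real.exp_add]; norm_num
  have h3 : (1 + 3 / 10 : ℝ) ≤ Real.exp (3 / 10) := by
    linarith [Real.add_one_le_exp (3 / 10 : ℝ)]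
  rw [h2]
  have h4 : (1096 : ℝ) ≤ Real.exp (7 : ℕ) := le_trans (by norm_num) h1
  have h5 : (1096 : ℝ) * (1 + 3 / 10) ≤ Real.exp (7 : ℕ) * Real.exp (3 / 10) := by
    apply mul_le_mul h4 h3 (by norm_num) (Real.exp_pos _).le
  have h6 := ph_gt
  push_cast at *
  nlinarith

lemma ge_N1_of_zz {j : ℕ} (hj : 1 ≤ j) (h : 73 / 10 < zz j) : 2216 ≤ j := by
  by_contra hc
  push Not at hc
  have : zz j ≤ zz (2216 : ℝ) :=
    zz_mono (by exact_mod_cast hj) (by exact_mod_cast hc.le)
  linarith [zz_N1_le]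

/-- exponential bound -/
lemma expE_bound {z : ℝ} (hz : 12 ≤ z) :
    Real.exp (-(z / ph)) * (1 + 618 / 1000 * (z - 12) + 19 / 100 * (z - 12) ^ 2) ≤ 62 / 100000 := by
  have hp := ph_pos
  have hp1 := ph_gt
  have hp2 := ph_lt
  set t := z - 12 with ht
  have ht0 : 0 ≤ t := by linarith
  have hinv : (618 / 1000 : ℝ) ≤ 1 / ph := by
    rw [le_div_iff₀ hp]; linarith
  have h1 : z / ph = 12 / ph + t / ph := by rw [ht]; ring
  have h2 : (74 / 10 : ℝ) ≤ 12 / ph := by rw [le_div_iff₀ hp]; linarith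
  have h3 : (618 / 1000 : ℝ) * t ≤ t / ph := by
    have := mul_le_mul_of_nonneg_right hinv ht0
    calc _ ≤ _ := this
      _ = t / ph := by ring
  have h4 : 1 + 618 / 1000 * t + 19 / 100 * t ^ 2 ≤ Real.exp (t / ph) := by
    have := Real.quadratic_le_exp_of_nonneg (x := t / ph) (by positivity)
    have h5 : (618 / 1000 * t) ^ 2 ≤ (t / ph) ^ 2 := by
      apply pow_le_pow_left₀ (by positivity) h3
    nlinarith [sq_nonneg t]
  have h6 : (1620 : ℝ) ≤ Real.exp (12 / ph) := by
    have a1 := exp_nat_lower 7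
    have a2 : Real.exp (74 / 10) = Real.exp (7 : ℕ) * Real.exp (4 / 10) := by
      rw [← Real.exp_add]; norm_num
    have a3 := Real.quadratic_le_exp_of_nonneg (x := (4 / 10 : ℝ)) (by norm_num)
    have a4 : (1096 : ℝ) ≤ Real.exp (7 : ℕ) := le_trans (by norm_num) a1
    have a5 : (1096 : ℝ) * (1 + 4 / 10 + (4 / 10) ^ 2 / 2) ≤
        Real.exp (7 : ℕ) * Real.exp (4 / 10) := by
      apply mul_le_mul a4 a3 (by norm_num) (Real.exp_pos _).le
    have a6 : Real.exp (74 / 10) ≤ Real.exp (12 / ph) := Real.exp_le_exp.2 h2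
    rw [a2] at a6
    norm_num at a5
    linarith
  rw [Real.exp_neg, h1, Real.exp_add, inv_mul_eq_div, div_le_iff₀ (by positivity)]
  have hE := Real.exp_pos (t / ph)
  nlinarith [mul_le_mul h6 h4 (by positivity) (Real.exp_pos _).le]

lemma expE_small {z : ℝ} (hz : 12 ≤ z) : Real.exp (-(z / ph)) ≤ 62 / 100000 := by
  have h := expE_bound hz
  have hE := Real.exp_pos (-(z / ph))
  have : 1 ≤ 1 + 618 / 1000 * (z - 12) + 19 / 100 * (z - 12) ^ 2 := by
    have : 0 ≤ z - 12 := by linarith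
    nlinarith [sq_nonneg (z - 12)]
  nlinarith


noncomputable def bA (z : ℝ) : ℝ := -((3 / 10) / (z + 2))
noncomputable def bA' (z : ℝ) : ℝ := (3 / 10) / (z + 2) ^ 2

lemma bA_deriv {z : ℝ} (hz : 0 < z + 2) : HasDerivAt bA (bA' z) z := by
  have h1 : HasDerivAt (fun z : ℝ => z + 2) 1 z := (hasDerivAt_id z).add_const 2
  have h2 := ((h1.inv hz.ne').const_mul (3 / 10 : ℝ)).neg
  have e1 : (fun z : ℝ => bA z) = -fun y : ℝ => 3 / 10 * (y + 2)⁻¹ := by
    funext y; simp only [bA, Pi.neg_apply]; ring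
  have e2 : -(3 / 10 * (-1 / (z + 2) ^ 2)) = bA' z := by
    unfold bA'; field_simp
  rw [e2] at h2
  have e3 : bA = -fun y : ℝ => 3 / 10 * (y + 2)⁻¹ := e1
  rw [e3]
  exact h2

/-- small bounds -/
lemma bA_small {z : ℝ} (hz : 12 ≤ z) : |bA z| ≤ 215 / 10000 ∧ |bA' z| ≤ 16 / 10000 ∧
    epsE bA bA' z ≤ 24 / 1000 := by
  have h1 : |bA z| ≤ 215 / 10000 := by
    unfold bA
    rw [abs_neg, abs_of_pos (by positivity), div_le_iff₀ (by linarith)]
    linarith
  have h2 : |bA' z| ≤ 16 / 10000 := by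
    unfold bA'
    rw [abs_of_pos (by positivity), div_le_iff₀ (by positivity)]
    nlinarith
  refine ⟨h1, h2, ?_⟩
  unfold epsE
  have := expE_small hz
  linarith

lemma keyA {z : ℝ} (hz : 12 ≤ z) (e : ℝ) (he : |e| ≤ 24 / 1000) :
    ph * bA z + bA' z + bA' z ^ 2 + 13 / 10 * Real.exp (-(z / ph)) ≤ bA (z / ph + e) := by
  have hp := ph_pos
  have hp1 := ph_gt
  have hp2 := ph_lt
  have hE := Real.exp_pos (-(z / ph))
  have hEb := expE_bound hz
  set E := Real.exp (-(z / ph)) with hEdef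
  set t := z - 12 with ht
  have ht0 : 0 ≤ t := by linarith
  have he1 := (abs_le.1 he).1
  have he2 := (abs_le.1 he).2
  -- right side
  have hu : z / ph + e + 2 = (z + ph * (e + 2)) / ph := by field_simp; ring
  have hu2 : z + 319 / 100 ≤ z + ph * (e + 2) := by nlinarith
  have hR : -((3 / 10) * ph / (z + 319 / 100)) ≤ bA (z / ph + e) := by
    unfold bA
    rw [hu, neg_le_neg_iff, div_div_eq_mul_div]
    apply div_le_div_of_nonneg_left (by positivity) (by linarith) hu2
  refine le_trans ?_ hR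
  -- P := (z+2)^2 (z+3.19)
  have hz2 : 0 < z + 2 := by linarith
  have hz3 : 0 < z + 319 / 100 := by linarith
  have hP : 13 / 10 * E * ((z + 2) ^ 2 * (z + 319 / 100)) ≤ 277 / 1000 * z + 196 / 1000 := by
    have h1 : 806 / 1000000 * ((z + 2) ^ 2 * (z + 319 / 100)) ≤
        (277 / 1000 * z + 196 / 1000) * (1 + 618 / 1000 * t + 19 / 100 * t ^ 2) := by
      have hzt : z = t + 12 := by rw [ht]; ring
      rw [hzt]
      nlinarith [mul_nonneg ht0 ht0, mul_nonneg (mul_nonneg ht0 ht0) ht0]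
    have h2 := mul_le_mul_of_nonneg_left h1 hE.le
    have h3 : E * ((277 / 1000 * z + 196 / 1000) * (1 + 618 / 1000 * t + 19 / 100 * t ^ 2)) ≤
        62 / 100000 * (277 / 1000 * z + 196 / 1000) := by
      have := mul_le_mul_of_nonneg_right hEb (show 0 ≤ 277 / 1000 * z + 196 / 1000 by linarith)
      linarith
    nlinarith
  have hb2 : bA' z ^ 2 ≤ (5 / 10000) / (z + 2) ^ 2 := by
    unfold bA'
    rw [div_pow, div_le_div_iff₀ (by positivity) (by positivity)]
    have : (196 : ℝ) ≤ (z + 2) ^ 2 := by nlinarith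
    have h2 : 0 < (z + 2) ^ 2 := by positivity
    have : (3 / 10 : ℝ) ^ 2 ≤ 5 / 10000 * (z + 2) ^ 2 := by nlinarith
    nlinarith
  have hfin : ph * bA z + bA' z + (5 / 10000) / (z + 2) ^ 2 +
      (277 / 1000 * z + 196 / 1000) / ((z + 2) ^ 2 * (z + 319 / 100)) ≤
      -((3 / 10) * ph / (z + 319 / 100)) := by
    unfold bA bA'
    have e1 : ph * -((3 / 10) / (z + 2)) + (3 / 10) / (z + 2) ^ 2 + (5 / 10000) / (z + 2) ^ 2 +
      (277 / 1000 * z + 196 / 1000) / ((z + 2) ^ 2 * (z + 319 / 100)) +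
      ((3 / 10) * ph / (z + 319 / 100)) =
      (-(3 / 10) * ph * (z + 2) * (119 / 100) + (3005 / 10000) * (z + 319 / 100) +
        (277 / 1000 * z + 196 / 1000)) / ((z + 2) ^ 2 * (z + 319 / 100)) := by
      field_simp
      ring
    have e2 : (-(3 / 10) * ph * (z + 2) * (119 / 100) + (3005 / 10000) * (z + 319 / 100) +
        (277 / 1000 * z + 196 / 1000)) / ((z + 2) ^ 2 * (z + 319 / 100)) ≤ 0 := by
      apply div_nonpos_of_nonpos_of_nonneg
      · nlinarith
      · positivity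
    linarith
  have hP' : 13 / 10 * E ≤ (277 / 1000 * z + 196 / 1000) / ((z + 2) ^ 2 * (z + 319 / 100)) := by
    rw [le_div_iff₀ (by positivity)]; exact hP
  linarith

/-- The a-priori bound. -/
theorem IsGolomb.ap (h : IsGolomb f) : ∀ n : ℕ, 2216 ≤ n → |Th f n| ≤ (3 / 10) / (zz n + 2) := by
  intro n
  induction n using Nat.strong_induction_on with
  | _ n ih =>
  intro hn
  have hp := ph_pos
  have hp1 := ph_gt
  have hp2 := ph_lt
  have hn0 : (0 : ℝ) < n := by exact_mod_cast (show 0 < n by omega)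
  by_cases hn2 : n ≤ 263722
  · have h1 := h.baseA (by omega) hn2
    have h2 : zz n ≤ 12018 / 1000 := by
      refine le_trans (zz_mono hn0 ?_) zz_N2_le
      exact_mod_cast hn2
    have h3 : 0 ≤ zz n := zz_nonneg (by exact_mod_cast (show 2 ≤ n by omega))
    refine h1.trans ?_
    rw [le_div_iff₀ (by linarith)]
    nlinarith
  · push Not at hn2
    have hcast : ((n - 1 : ℕ) : ℝ) = (n : ℝ) - 1 := by
      push_cast [Nat.cast_sub (show 1 ≤ n by omega)]; ring
    have hz1 : 12 ≤ zz ((n : ℝ) - 1) := by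
      refine le_trans zz_N2_ge (zz_mono (by norm_num) ?_)
      have : (263723 : ℝ) ≤ n := by exact_mod_cast hn2
      linarith
    have hzx : ∀ x : ℝ, (n : ℝ) - 1 ≤ x → 12 ≤ zz x := by
      intro x hx
      refine hz1.trans (zz_mono ?_ hx)
      have : (263723 : ℝ) ≤ n := by exact_mod_cast hn2
      linarith
    have hb : ∀ x : ℝ, (n : ℝ) - 1 ≤ x → x ≤ n → HasDerivAt bA (bA' (zz x)) (zz x) := by
      intro x hx _
      have := hzx x hx
      exact bA_deriv (by linarith)
    have hexp : Real.exp (-(zz ((n : ℝ) - 1) / ph)) ≤ 1 / 1000 := by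
      have := expE_small hz1
      linarith
    have hB : ∀ x : ℝ, (n : ℝ) - 1 < x → x < n → |bA (zz x)| ≤ 3 / 100 ∧ |bA' (zz x)| ≤ 2 / 100 := by
      intro x hx _
      obtain ⟨a1, a2, a3⟩ := bA_small (hzx x hx.le)
      constructor <;> linarith
    have key : ∀ x : ℝ, (n : ℝ) - 1 < x → x < n → ∀ e : ℝ, |e| ≤ epsE bA bA' (zz x) →
      ph * bA (zz x) + bA' (zz x) + bA' (zz x) ^ 2 + 13 / 10 * Real.exp (-(zz x / ph)) ≤
        bA (zz x / ph + e) := by
      intro x hx _ e he
      obtain ⟨a1, a2, a3⟩ := bA_small (hzx x hx.le)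
      exact keyA (hzx x hx.le) e (he.trans a3)
    have old : ∀ x : ℝ, (n : ℝ) - 1 < x → x < n → ∀ j : ℕ, 1 ≤ j →
        |zz j - zz x / ph| ≤ epsE bA bA' (zz x) → |Th f j| ≤ (3 / 10) / (zz j + 2) := by
      intro x hx hx2 j hj he
      have hz := hzx x hx.le
      obtain ⟨a1, a2, a3⟩ := bA_small hz
      have he' := abs_le.1 (he.trans a3)
      have hdiv : 7416 / 1000 ≤ zz x / ph := by
        rw [le_div_iff₀ hp]; nlinarith
      have hdiv2 : zz x / ph ≤ zz x * (62 / 100) := by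
        rw [div_le_iff₀ hp]; nlinarith
      apply ih j
      · by_contra hc
        push Not at hc
        have h1 : zz x ≤ zz n := zz_mono (by linarith [show (1:ℝ) ≤ n from by exact_mod_cast (show 1 ≤ n by omega)]) hx2.le
        have h2 : zz n ≤ zz j := zz_mono hn0 (by exact_mod_cast hc)
        linarith
      · exact ge_N1_of_zz hj (by linarith)
    have hprev := ih (n - 1) (by omega) (by omega)
    rw [hcast] at hprev
    have hprev' := abs_le.1 hprev
    have g1 : bA (zz n) ≤ Th f n := by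
      apply h.step_lower' (b := bA) (b' := bA') (bo := bA) (by omega) hb hexp hB key
      · intro x hx hx2 j hj he
        have := (abs_le.1 (old x hx hx2 j hj he)).2
        unfold bA; linarith
      · unfold bA; linarith
    have g2 : bA (zz n) ≤ - Th f n := by
      apply h.step_upper' (b := bA) (b' := bA') (bo := bA) (by omega) hb hexp hB key
      · intro x hx hx2 j hj he
        have := (abs_le.1 (old x hx hx2 j hj he)).1
        unfold bA; linarith
      · unfold bA; linarith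
    unfold bA at g1 g2
    rw [abs_le]
    constructor <;> linarith

end Pool.Agent.H517R2.Golomb
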