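import Mathlib
import Pool.Agent.H517R2.Golomb.AP

set_option autoImplicit false

namespace Pool.Agent.H517R2.Golomb

open Real

variable {f : ℕ → ℕ}

/-- The constant `c = 0.0013`. -/
noncomputable def cc : ℝ := 13 / 10000

noncomputable def th (k : ℕ) : ℝ := (ph ^ k)⁻¹

noncomputable def kap (k : ℕ) (z : ℝ) : ℝ :=
  232 * Real.exp (-(8 / 5) * (th k * (z + 9 / 5) - 94 / 5))

noncomputable def bk (k : ℕ) (z : ℝ) : ℝ := (cc / z) * (1 - kap k z)

noncomputable def bk' (k : ℕ) (z : ℝ) : ℝ :=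
  -(cc / z ^ 2) * (1 - kap k z) + (cc / z) * ((8 / 5) * th k * kap k z)

noncomputable def Zk (k : ℕ) : ℝ := ph ^ k * (229 / 10) + 1 / 10

lemma th_pos (k : ℕ) : 0 < th k := by
  unfold th
  have := ph_pos
  positivity

lemma th_succ (k : ℕ) : th k = ph * th (k + 1) := by
  unfold th
  have := ph_pos
  rw [pow_succ]
  field_simp

lemma th_le (k : ℕ) : th (k + 1) ≤ 6181 / 10000 := by
  have h1 := ph_gt
  have hp := ph_pos
  have h2 : ph ≤ ph ^ (k + 1) := by
    have : 1 ≤ ph ^ k := one_le_pow₀ ph_gt_one.le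
    rw [pow_succ]; nlinarith
  unfold th
  rw [inv_le_comm₀ (by positivity) (by norm_num)]
  linarith

lemma kap_pos (k : ℕ) (z : ℝ) : 0 < kap k z := by
  unfold kap
  positivity

lemma kap_anti (k : ℕ) {y z : ℝ} (h : y ≤ z) : kap k z ≤ kap k y := by
  unfold kap
  have := th_pos k
  have h1 : Real.exp (-(8 / 5) * (th k * (z + 9 / 5) - 94 / 5)) ≤
      Real.exp (-(8 / 5) * (th k * (y + 9 / 5) - 94 / 5)) := by
    apply Real.exp_le_exp.2
    nlinarith
  linarith

lemma bk_deriv (k : ℕ) {z : ℝ} (hz : 0 < z) : HasDerivAt (bk k) (bk' k z) z := by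
  have h1 : HasDerivAt (fun z : ℝ => -(8 / 5) * (th k * (z + 9 / 5) - 94 / 5))
      (-(8 / 5) * th k) z := by
    have := ((((hasDerivAt_id z).add_const (9 / 5 : ℝ)).const_mul (th k)).sub_const (94 / 5 : ℝ)).const_mul
      (-(8 / 5) : ℝ)
    simpa using this
  have h2 : HasDerivAt (kap k) (-(8 / 5) * th k * kap k z) z := by
    have := h1.exp.const_mul (232 : ℝ)
    have e : 232 * (Real.exp (-(8 / 5) * (th k * (z + 9 / 5) - 94 / 5)) * (-(8 / 5) * th k)) =
      -(8 / 5) * th k * kap k z := by unfold kap; ring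
    rw [e] at this
    exact this
  have h3 : HasDerivAt (fun z : ℝ => cc / z) (-(cc / z ^ 2)) z := by
    have := (hasDerivAt_inv hz.ne').const_mul cc
    have e : cc * (-(z ^ 2)⁻¹) = -(cc / z ^ 2) := by ring
    rw [e] at this
    have e2 : (fun y : ℝ => cc * y⁻¹) = fun z : ℝ => cc / z := by funext y; ring
    rw [e2] at this
    exact this
  have h4 : HasDerivAt (fun z : ℝ => 1 - kap k z) ((8 / 5) * th k * kap k z) z := by
    have := h2.const_sub 1
    have e : -(-(8 / 5) * th k * kap k z) = (8 / 5) * th k * kap k z := by ring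
    rw [e] at this
    exact this
  have h5 := h3.mul h4
  exact h5

/-- `E z² ≤ 10⁻⁴`. -/
lemma expE_sq {z : ℝ} (hz : 285 / 10 ≤ z) : Real.exp (-(z / ph)) * z ^ 2 ≤ 1 / 10000 := by
  have hp := ph_pos
  have h1 := expE_bound (z := z / 2) (by linarith)
  set s := z / 2 - 12 with hs
  have hs0 : 225 / 100 ≤ s := by rw [hs]; linarith
  have hE := Real.exp_pos (-(z / 2 / ph))
  have h2 : Real.exp (-(z / 2 / ph)) * z ≤ 1 / 100 := by
    have hz2 : z = 2 * (s + 12) := by rw [hs]; ring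
    have h3 : 62 / 100000 * z ≤ 1 / 100 * (1 + 618 / 1000 * s + 19 / 100 * s ^ 2) := by
      rw [hz2]; nlinarith
    have h4 : 0 < 1 + 618 / 1000 * s + 19 / 100 * s ^ 2 := by positivity
    by_contra hc
    push Not at hc
    have h5 := mul_lt_mul_of_pos_right hc h4
    have h6 : Real.exp (-(z / 2 / ph)) * z * (1 + 618 / 1000 * s + 19 / 100 * s ^ 2) ≤
        62 / 100000 * z := by
      have := mul_le_mul_of_nonneg_right h1 (show 0 ≤ z by linarith)
      linarith
    linarith
  have h7 : Real.exp (-(z / ph)) = Real.exp (-(z / 2 / ph)) ^ 2 := by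
    rw [← Real.exp_nat_mul]; congr 1; push_cast; ring
  rw [h7, ← mul_pow]
  calc (Real.exp (-(z / 2 / ph)) * z) ^ 2 ≤ (1 / 100) ^ 2 := by
        apply pow_le_pow_left₀ _ h2
        have : 0 ≤ z := by linarith
        positivity
    _ = 1 / 10000 := by norm_num

/-- `exp(-1.72 θ) ≤ 1 - 1.055 θ` on `[0, 0.6181]`. -/
lemma exp_chord {t : ℝ} (h0 : 0 ≤ t) (h1 : t ≤ 6181 / 10000) :
    Real.exp (-(17236 / 10000) * t) ≤ 1 - 1055 / 1000 * t := by
  set w := t / (6181 / 10000) with hw
  have hw0 : 0 ≤ w := by positivity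
  have hw1 : w ≤ 1 := by rw [hw, div_le_one (by norm_num)]; exact h1
  have ht : t = w * (6181 / 10000) := by rw [hw]; field_simp
  have hc := convexOn_exp.2 (Set.mem_univ (0 : ℝ)) (Set.mem_univ (-(17236 / 10000) * (6181 / 10000) : ℝ))
    (show 0 ≤ 1 - w by linarith) hw0 (by ring)
  simp only [smul_eq_mul, mul_zero, zero_add, Real.exp_zero, mul_one] at hc
  have e1 : w * (-(17236 / 10000) * (6181 / 10000)) = -(17236 / 10000) * t := by rw [ht]; ring
  rw [e1] at hc
  have h2 : Real.exp (-(17236 / 10000) * (6181 / 10000)) ≤ 3478 / 10000 := by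
    have h3 : (-(17236 / 10000) * (6181 / 10000) : ℝ) = -(10653 / 10000 + 5716 / 100000000) := by
      norm_num
    rw [show (-(17236 / 10000) * (6181 / 10000) : ℝ) = -(17236 * 6181 / 100000000) by norm_num,
      Real.exp_neg, inv_le_comm₀ (Real.exp_pos _) (by norm_num)]
    have h4 : (17236 * 6181 / 100000000 : ℝ) = 1 + (17236 * 6181 / 100000000 - 1) := by norm_num
    rw [h4, Real.exp_add]
    have h5 := Real.exp_one_gt_d9
    have h6 := Real.quadratic_le_exp_of_nonneg (x := (17236 * 6181 / 100000000 - 1 : ℝ)) (by norm_num)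
    have h7 := mul_le_mul h5.le h6 (by norm_num) (Real.exp_pos _).le
    refine le_trans ?_ h7
    norm_num
  have h3 : w * Real.exp (-(17236 / 10000) * (6181 / 10000)) ≤ w * (3478 / 10000) :=
    mul_le_mul_of_nonneg_left h2 hw0
  have h4 : 1 - 1055 / 1000 * t = 1 - w * (1055 / 1000 * (6181 / 10000)) := by rw [ht]; ring
  rw [h4]
  nlinarith

end Pool.Agent.H517R2.Golomb
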