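import Mathlib
import Pool.Agent.H517R2.Golomb.Main

set_option autoImplicit false

namespace Pool.Agent.H517R2.Golomb

open Real

lemma keyM_R {a κ q δ : ℝ} (hk0 : 0 ≤ κ) (hδ1 : |δ| ≤ a ^ 2) (ha2 : a ^ 2 ≤ 124 / 100000)
    (hkq : |1 - κ * q| ≤ 1 + κ) :
    (1 - κ * q) - 101 / 100 * a ^ 2 * (1 + κ) ≤ (1 - κ * q) / (1 + δ) := by
  have hδ2 := abs_le.1 hδ1
  have hδpos : 0 < 1 + δ := by linarith [hδ2.1]
  rw [le_div_iff₀ hδpos]
  have h1 : (1 - κ * q) * δ ≤ (1 + κ) * a ^ 2 := by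
    have h0 : (1 - κ * q) * δ ≤ |1 - κ * q| * |δ| := by
      rw [← abs_mul]; exact le_abs_self _
    exact h0.trans (mul_le_mul hkq hδ1 (abs_nonneg _) (by linarith))
  have h3 : 0 ≤ a ^ 2 * (1 + κ) := by positivity
  have h4 : a ^ 2 * (1 + κ) ≤ 101 / 100 * a ^ 2 * (1 + κ) * (1 + δ) := by
    have h5 : 1 ≤ 101 / 100 * (1 + δ) := by linarith [hδ2.1]
    calc a ^ 2 * (1 + κ) = a ^ 2 * (1 + κ) * 1 := by ring
      _ ≤ a ^ 2 * (1 + κ) * (101 / 100 * (1 + δ)) := mul_le_mul_of_nonneg_left h5 h3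
      _ = _ := by ring
  calc (1 - κ * q - 101 / 100 * a ^ 2 * (1 + κ)) * (1 + δ) =
      (1 - κ * q) + (1 - κ * q) * δ - 101 / 100 * a ^ 2 * (1 + κ) * (1 + δ) := by ring
    _ ≤ 1 - κ * q := by linarith

lemma keyM_main {a t κ q p D : ℝ} (hp1 : 1.6180339887 < p) (hp2 : p < 1.6180339888)
    (ha : 0 < a) (ha1 : a ≤ 351 / 10000) (ht0 : 0 < t) (ht1 : t ≤ 6181 / 10000)
    (hat : a ≤ 566 / 10000 * t) (hk0 : 0 ≤ κ) (hck : 13 / 10000 * (1 + κ) ≤ 3042 / 10000)
    (hD : D = -(a * (1 - κ)) + 8 / 5 * t * κ)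
    (hDabs2 : |D| ≤ (1 + κ) * (16566 / 10000 * t))
    (hq : q ≤ 1 - 1055 / 1000 * t) :
    p * (1 - κ) + D + 13 / 10000 * a * D ^ 2 + 1 / 10 * a ≤
      p * ((1 - κ * q) - 101 / 100 * a ^ 2 * (1 + κ)) := by
  have f1 : a * κ ≤ 566 / 10000 * (t * κ) := by
    calc a * κ ≤ (566 / 10000 * t) * κ := mul_le_mul_of_nonneg_right hat hk0
      _ = _ := by ring
  have htsq : t ^ 2 ≤ 38206 / 100000 := by
    calc t ^ 2 ≤ (6181 / 10000) ^ 2 := pow_le_pow_left₀ ht0.le ht1 2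
      _ ≤ _ := by norm_num
  have hat2 : 0 ≤ a * t ^ 2 * (1 + κ) := by positivity
  have f2 : 13 / 10000 * a * D ^ 2 ≤ 8349 / 10000 * (a * t ^ 2 * (1 + κ)) := by
    have h1 : D ^ 2 ≤ ((1 + κ) * (16566 / 10000 * t)) ^ 2 := by
      rw [← sq_abs D]
      exact pow_le_pow_left₀ (abs_nonneg _) hDabs2 2
    calc 13 / 10000 * a * D ^ 2 ≤ 13 / 10000 * a * ((1 + κ) * (16566 / 10000 * t)) ^ 2 :=
          mul_le_mul_of_nonneg_left h1 (by positivity)
      _ = (13 / 10000 * (1 + κ)) * ((16566 / 10000) ^ 2 * (a * t ^ 2 * (1 + κ))) := by ring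
      _ ≤ 3042 / 10000 * ((16566 / 10000) ^ 2 * (a * t ^ 2 * (1 + κ))) :=
          mul_le_mul_of_nonneg_right hck (by positivity)
      _ ≤ 8349 / 10000 * (a * t ^ 2 * (1 + κ)) := by linarith
  have f3 : a * t ^ 2 ≤ 38206 / 100000 * a := by
    calc a * t ^ 2 ≤ a * (38206 / 100000) := mul_le_mul_of_nonneg_left htsq ha.le
      _ = _ := by ring
  have htk : 0 ≤ t * κ := by positivity
  have f4 : a * t ^ 2 * κ ≤ 2163 / 100000 * (t * κ) := by
    have h1 : a * t ^ 2 ≤ 2163 / 100000 * t := by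
      calc a * t ^ 2 ≤ (566 / 10000 * t) * t ^ 2 := mul_le_mul_of_nonneg_right hat (by positivity)
        _ = 566 / 10000 * (t ^ 2) * t := by ring
        _ ≤ 566 / 10000 * (38206 / 100000) * t := by
            apply mul_le_mul_of_nonneg_right _ ht0.le
            linarith
        _ ≤ 2163 / 100000 * t := by
            apply mul_le_mul_of_nonneg_right _ ht0.le
            norm_num
    calc a * t ^ 2 * κ ≤ 2163 / 100000 * t * κ := mul_le_mul_of_nonneg_right h1 hk0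
      _ = _ := by ring
  have ha2k : 0 ≤ a ^ 2 * (1 + κ) := by positivity
  have f5 : p * (101 / 100 * a ^ 2 * (1 + κ)) ≤ 1635 / 1000 * (a ^ 2 * (1 + κ)) := by
    calc p * (101 / 100 * a ^ 2 * (1 + κ)) = (p * (101 / 100)) * (a ^ 2 * (1 + κ)) := by ring
      _ ≤ 1635 / 1000 * (a ^ 2 * (1 + κ)) := by
        apply mul_le_mul_of_nonneg_right _ ha2k
        linarith
  have f6 : a ^ 2 ≤ 351 / 10000 * a := by
    calc a ^ 2 = a * a := by ring
      _ ≤ 351 / 10000 * a := mul_le_mul_of_nonneg_right ha1 ha.le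
  have f7 : a ^ 2 * κ ≤ 2 / 1000 * (t * κ) := by
    have h1 : a ^ 2 ≤ 2 / 1000 * t := by linarith
    calc a ^ 2 * κ ≤ 2 / 1000 * t * κ := mul_le_mul_of_nonneg_right h1 hk0
      _ = _ := by ring
  have f8 : 17069 / 10000 * (t * κ) ≤ p * (κ * (1 - q)) := by
    have h1 : 1055 / 1000 * t ≤ 1 - q := by linarith
    have h2 : κ * (1055 / 1000 * t) ≤ κ * (1 - q) := mul_le_mul_of_nonneg_left h1 hk0
    calc 17069 / 10000 * (t * κ) ≤ (1.6180339887 * (1055 / 1000)) * (t * κ) := by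
          apply mul_le_mul_of_nonneg_right _ htk
          norm_num
      _ = 1.6180339887 * (κ * (1055 / 1000 * t)) := by ring
      _ ≤ p * (κ * (1055 / 1000 * t)) := by
          apply mul_le_mul_of_nonneg_right hp1.le
          positivity
      _ ≤ p * (κ * (1 - q)) := mul_le_mul_of_nonneg_left h2 (by linarith)
  have e1 : D = - a + a * κ + 8 / 5 * (t * κ) := by rw [hD]; ring
  have e2 : a * t ^ 2 * (1 + κ) = a * t ^ 2 + a * t ^ 2 * κ := by ring
  have e3 : a ^ 2 * (1 + κ) = a ^ 2 + a ^ 2 * κ := by ring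
  have e4 : p * ((1 - κ * q) - 101 / 100 * a ^ 2 * (1 + κ)) =
    p * (1 - κ) + p * (κ * (1 - q)) - p * (101 / 100 * a ^ 2 * (1 + κ)) := by ring
  rw [e2] at f2
  rw [e3] at f5
  rw [e4]
  linarith

lemma keyM_D {a t κ D : ℝ}
    (ha : 0 < a) (ht0 : 0 < t) (hat : a ≤ 566 / 10000 * t) (hk0 : 0 ≤ κ)
    (hD : D = -(a * (1 - κ)) + 8 / 5 * t * κ) :
    |D| ≤ (1 + κ) * (16566 / 10000 * t) := by
  have h1 : 0 ≤ a * κ := by positivity
  have h2 : 0 ≤ t * κ := by positivity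
  have h3 : a * κ ≤ 566 / 10000 * (t * κ) := by
    calc a * κ ≤ (566 / 10000 * t) * κ := mul_le_mul_of_nonneg_right hat hk0
      _ = _ := by ring
  have e : D = -a + a * κ + 8 / 5 * (t * κ) := by rw [hD]; ring
  have e2 : (1 + κ) * (16566 / 10000 * t) = 16566 / 10000 * t + 16566 / 10000 * (t * κ) := by ring
  rw [abs_le, e, e2]
  constructor <;> linarith

lemma keyM_e {a t κ e E D : ℝ}
    (ha : 0 < a) (ha1 : a ≤ 351 / 10000) (ht1 : t ≤ 6181 / 10000)
    (hk0 : 0 ≤ κ) (hck : 13 / 10000 * (1 + κ) ≤ 3042 / 10000)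
    (hE : E ≤ 1 / 10000 * a ^ 2)
    (hDabs2 : |D| ≤ (1 + κ) * (16566 / 10000 * t))
    (he : |e| ≤ |13 / 10000 * a * (1 - κ)| + |13 / 10000 * a * D| + E) :
    |e| ≤ 616 / 1000 * a := by
  have hEa : E ≤ 1 / 100000 * a := by nlinarith
  have h1k : |1 - κ| ≤ 1 + κ := by rw [abs_le]; constructor <;> linarith
  have hDabs3 : |D| ≤ (1 + κ) * (10241 / 10000) := by
    refine hDabs2.trans (mul_le_mul_of_nonneg_left ?_ (by linarith))
    linarith
  refine he.trans ?_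
  rw [abs_mul, abs_mul (13 / 10000 * a) D, abs_of_pos (show 0 < 13 / 10000 * a by positivity)]
  have h1 : 13 / 10000 * a * |1 - κ| ≤ 3042 / 10000 * a := by
    calc 13 / 10000 * a * |1 - κ| ≤ 13 / 10000 * a * (1 + κ) :=
          mul_le_mul_of_nonneg_left h1k (by positivity)
      _ = (13 / 10000 * (1 + κ)) * a := by ring
      _ ≤ _ := mul_le_mul_of_nonneg_right hck ha.le
  have h2 : 13 / 10000 * a * |D| ≤ 3042 / 10000 * (10241 / 10000) * a := by
    calc 13 / 10000 * a * |D| ≤ 13 / 10000 * a * ((1 + κ) * (10241 / 10000)) :=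
          mul_le_mul_of_nonneg_left hDabs3 (by positivity)
      _ = (13 / 10000 * (1 + κ)) * ((10241 / 10000) * a) := by ring
      _ ≤ 3042 / 10000 * ((10241 / 10000) * a) := mul_le_mul_of_nonneg_right hck (by positivity)
      _ = _ := by ring
  linarith

lemma keyM_core {a t κ e E q p : ℝ} (hp1 : 1.6180339887 < p) (hp2 : p < 1.6180339888)
    (ha : 0 < a) (ha1 : a ≤ 351 / 10000) (ht0 : 0 < t) (ht1 : t ≤ 6181 / 10000)
    (hat : a ≤ 566 / 10000 * t) (hk0 : 0 ≤ κ) (hk1 : κ ≤ 233)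
    (hE : E ≤ 1 / 10000 * a ^ 2)
    (he : |e| ≤ |13 / 10000 * a * (1 - κ)| + |13 / 10000 * a * (-(a * (1 - κ)) + 8 / 5 * t * κ)| + E)
    (hq0 : 0 ≤ q) (hq1 : 0 ≤ e + 217 / 10000 → q ≤ 1 - 1055 / 1000 * t) :
    p * (13 / 10000 * a * (1 - κ)) + 13 / 10000 * a * (-(a * (1 - κ)) + 8 / 5 * t * κ) +
      (13 / 10000 * a * (-(a * (1 - κ)) + 8 / 5 * t * κ)) ^ 2 + 13 / 10 * E ≤
      13 / 10000 * p * a / (1 + p * e * a) * (1 - κ * q) := by
  obtain ⟨D, hD⟩ : ∃ D, D = -(a * (1 - κ)) + 8 / 5 * t * κ := ⟨_, rfl⟩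
  rw [← hD] at he ⊢
  have hck : 13 / 10000 * (1 + κ) ≤ 3042 / 10000 := by linarith
  have hDabs2 := keyM_D ha ht0 hat hk0 hD
  have he1 := keyM_e ha ha1 ht1 hk0 hck hE hDabs2 he
  have he2 : |e| ≤ 217 / 10000 := he1.trans (by linarith)
  have he3 := abs_le.1 he2
  have hq := hq1 (by linarith [he3.1])
  obtain ⟨δ, hδ⟩ : ∃ δ, δ = p * e * a := ⟨_, rfl⟩
  rw [← hδ]
  have hδ1 : |δ| ≤ a ^ 2 := by
    rw [hδ, abs_mul, abs_mul, abs_of_pos (show 0 < p by linarith), abs_of_pos ha]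
    have h1 : p * |e| ≤ a := by
      calc p * |e| ≤ p * (616 / 1000 * a) := mul_le_mul_of_nonneg_left he1 (by linarith)
        _ = (p * (616 / 1000)) * a := by ring
        _ ≤ 1 * a := by
            apply mul_le_mul_of_nonneg_right _ ha.le
            linarith
        _ = a := one_mul a
    calc p * |e| * a ≤ a * a := mul_le_mul_of_nonneg_right h1 ha.le
      _ = a ^ 2 := by ring
  have ha2 : a ^ 2 ≤ 124 / 100000 := by
    calc a ^ 2 ≤ (351 / 10000) ^ 2 := pow_le_pow_left₀ ha.le ha1 2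
      _ ≤ _ := by norm_num
  have hq1' : q ≤ 1 := by linarith
  have hkq0 : 0 ≤ κ * q := mul_nonneg hk0 hq0
  have hkq1 : κ * q ≤ κ := by
    calc κ * q ≤ κ * 1 := mul_le_mul_of_nonneg_left hq1' hk0
      _ = κ := mul_one κ
  have hkq : |1 - κ * q| ≤ 1 + κ := by
    rw [abs_le]
    constructor <;> linarith
  have hR := keyM_R hk0 hδ1 ha2 hkq
  have hmain := keyM_main hp1 hp2 ha ha1 ht0 ht1 hat hk0 hck hD hDabs2 hq
  have hcpa : 0 < 13 / 10000 * p * a := by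
    have : 0 < p := by linarith
    positivity
  have hRR : 13 / 10000 * p * a / (1 + δ) * (1 - κ * q) =
      13 / 10000 * p * a * ((1 - κ * q) / (1 + δ)) := by ring
  rw [hRR]
  refine le_trans ?_ (mul_le_mul_of_nonneg_left hR hcpa.le)
  have hfin := mul_le_mul_of_nonneg_left hmain (show 0 ≤ 13 / 10000 * a by positivity)
  have hEE : 13 / 10 * E ≤ 13 / 10000 * a * (1 / 10 * a) := by
    calc 13 / 10 * E ≤ 13 / 10 * (1 / 10000 * a ^ 2) := by linarith
      _ = _ := by ring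
  calc p * (13 / 10000 * a * (1 - κ)) + 13 / 10000 * a * D + (13 / 10000 * a * D) ^ 2 + 13 / 10 * E
      ≤ p * (13 / 10000 * a * (1 - κ)) + 13 / 10000 * a * D + (13 / 10000 * a * D) ^ 2 +
        13 / 10000 * a * (1 / 10 * a) := by linarith
    _ = 13 / 10000 * a * (p * (1 - κ) + D + 13 / 10000 * a * D ^ 2 + 1 / 10 * a) := by ring
    _ ≤ 13 / 10000 * a * (p * ((1 - κ * q) - 101 / 100 * a ^ 2 * (1 + κ))) := hfin
    _ = _ := by ring

/-- The key inequality for the main barrier. -/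
lemma keyM {z : ℝ} (k : ℕ) (hz : 285 / 10 ≤ z) (hzt : 1767 / 100 ≤ z * th (k + 1))
    (hk1 : kap (k + 1) z ≤ 233) (e : ℝ) (he : |e| ≤ epsE (bk (k + 1)) (bk' (k + 1)) z) :
    ph * bk (k + 1) z + bk' (k + 1) z + bk' (k + 1) z ^ 2 + 13 / 10 * Real.exp (-(z / ph)) ≤
      bk k (z / ph + e) := by
  have hp := ph_pos
  have hp1 := ph_gt
  have hp2 := ph_lt
  have ht0 := th_pos (k + 1)
  have ht1 := th_le k
  have hz0 : 0 < z := by linarith
  have hk0 := (kap_pos (k + 1) z).le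
  set t := th (k + 1) with ht
  set κ := kap (k + 1) z with hκ
  obtain ⟨a, ha⟩ : ∃ a, a = 1 / z := ⟨_, rfl⟩
  have ha0 : 0 < a := by rw [ha]; positivity
  have ha1 : a ≤ 351 / 10000 := by
    rw [ha, div_le_iff₀ hz0]; linarith
  have hza : z = 1 / a := by rw [ha]; simp
  have hat : a ≤ 566 / 10000 * t := by
    rw [ha, div_le_iff₀ hz0]; linarith
  have hE : Real.exp (-(z / ph)) ≤ 1 / 10000 * a ^ 2 := by
    have h1 := expE_sq hz
    rw [ha, div_pow, one_pow, ← div_eq_mul_one_div, le_div_iff₀ (by positivity)]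
    exact h1
  have eb : bk (k + 1) z = 13 / 10000 * a * (1 - κ) := by
    unfold bk cc; rw [ha, hκ]; ring
  have eb' : bk' (k + 1) z = 13 / 10000 * a * (-(a * (1 - κ)) + 8 / 5 * t * κ) := by
    unfold bk' cc; rw [ha, hκ, ht]; field_simp
  obtain ⟨q, hq⟩ : ∃ q, q = Real.exp (-(8 / 5) * t * (ph * e + (ph - 1) * (9 / 5))) := ⟨_, rfl⟩
  have hkq : kap k (z / ph + e) = κ * q := by
    rw [hκ, hq]
    unfold kap
    rw [mul_assoc, ← Real.exp_add, th_succ k]
    congr 2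
    rw [← ht]
    field_simp
    ring
  have er : bk k (z / ph + e) = 13 / 10000 * ph * a / (1 + ph * e * a) * (1 - κ * q) := by
    unfold bk
    rw [hkq]
    congr 1
    unfold cc
    have : z / ph + e = (1 + ph * e * a) / (ph * a) := by
      rw [ha]; field_simp
    rw [this, div_div_eq_mul_div]
    ring
  have hee : |e| ≤ |13 / 10000 * a * (1 - κ)| +
      |13 / 10000 * a * (-(a * (1 - κ)) + 8 / 5 * t * κ)| + Real.exp (-(z / ph)) := by
    unfold epsE at he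
    rw [eb, eb'] at he
    exact he
  rw [eb, eb', er]
  apply keyM_core hp1 hp2 ha0 ha1 ht0 ht1 hat hk0 hk1 hE hee
  · rw [hq]; exact (Real.exp_pos _).le
  · intro he1
    rw [hq]
    refine le_trans ?_ (exp_chord ht0.le ht1)
    apply Real.exp_le_exp.2
    have h1 : 10773 / 10000 ≤ ph * e + (ph - 1) * (9 / 5) := by nlinarith
    have h2 : 17236 / 10000 ≤ (8 / 5) * (ph * e + (ph - 1) * (9 / 5)) := by linarith
    have := mul_le_mul_of_nonneg_left h2 ht0.le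
    linarith

lemma eps_bound {z : ℝ} (k : ℕ) (hz : 285 / 10 ≤ z) (hzt : 1767 / 100 ≤ z * th (k + 1))
    (hk1 : kap (k + 1) z ≤ 233) :
    epsE (bk (k + 1)) (bk' (k + 1)) z ≤ 217 / 10000 ∧ |bk (k + 1) z| ≤ 3 / 100 ∧
      |bk' (k + 1) z| ≤ 2 / 100 := by
  have ht0 := th_pos (k + 1)
  have ht1 := th_le k
  have hz0 : 0 < z := by linarith
  have hk0 := (kap_pos (k + 1) z).le
  set t := th (k + 1) with ht
  set κ := kap (k + 1) z with hκ
  obtain ⟨a, ha⟩ : ∃ a, a = 1 / z := ⟨_, rfl⟩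
  have ha0 : 0 < a := by rw [ha]; positivity
  have ha1 : a ≤ 351 / 10000 := by
    rw [ha, div_le_iff₀ hz0]; linarith
  have hat : a ≤ 566 / 10000 * t := by
    rw [ha, div_le_iff₀ hz0]; linarith
  have hE : Real.exp (-(z / ph)) ≤ 1 / 10000 * a ^ 2 := by
    have h1 := expE_sq hz
    rw [ha, div_pow, one_pow, ← div_eq_mul_one_div, le_div_iff₀ (by positivity)]
    exact h1
  have eb : bk (k + 1) z = 13 / 10000 * a * (1 - κ) := by
    unfold bk cc; rw [ha, hκ]; ring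
  have eb' : bk' (k + 1) z = 13 / 10000 * a * (-(a * (1 - κ)) + 8 / 5 * t * κ) := by
    unfold bk' cc; rw [ha, hκ, ht]; field_simp
  have hck : 13 / 10000 * (1 + κ) ≤ 3042 / 10000 := by linarith
  have hDabs2 := keyM_D ha0 ht0 hat hk0 rfl
  have key := keyM_e (e := epsE (bk (k + 1)) (bk' (k + 1)) z) ha0 ha1 ht1 hk0 hck hE hDabs2 (by
    unfold epsE
    rw [eb, eb', abs_of_nonneg (by positivity)])
  have hE0 := Real.exp_pos (-(z / ph))
  have h1 : epsE (bk (k + 1)) (bk' (k + 1)) z ≤ 217 / 10000 := by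
    have := (le_abs_self _).trans key
    linarith
  refine ⟨h1, ?_, ?_⟩
  · unfold epsE at h1
    have := abs_nonneg (bk' (k + 1) z)
    linarith
  · rw [eb', abs_mul, abs_of_pos (show 0 < 13 / 10000 * a by positivity)]
    have h3 : |-(a * (1 - κ)) + 8 / 5 * t * κ| ≤ (1 + κ) * (10241 / 10000) := by
      refine hDabs2.trans (mul_le_mul_of_nonneg_left ?_ (by linarith))
      linarith
    calc 13 / 10000 * a * |-(a * (1 - κ)) + 8 / 5 * t * κ|
        ≤ 13 / 10000 * a * ((1 + κ) * (10241 / 10000)) :=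
          mul_le_mul_of_nonneg_left h3 (by positivity)
      _ = (13 / 10000 * (1 + κ)) * ((10241 / 10000) * a) := by ring
      _ ≤ 3042 / 10000 * ((10241 / 10000) * a) := mul_le_mul_of_nonneg_right hck (by positivity)
      _ ≤ 2 / 100 := by linarith

end Pool.Agent.H517R2.Golomb
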