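import Mathlib
import Pool.Agent.H517R2.Golomb.KeyM

set_option autoImplicit false

namespace Pool.Agent.H517R2.Golomb

open Real

variable {f : ℕ → ℕ}

lemma zz_17 : zz (39049185 : ℝ) ≤ 17 := by
  apply zz_le_of (by norm_num)
  have h1 := exp_nat_lower 17
  have h4 : (24154900 : ℝ) ≤ Real.exp (17 : ℕ) := le_trans (by norm_num) h1
  have h6 := ph_gt
  push_cast at *
  nlinarith

lemma zz_23 : 23 ≤ zz (15767500000 : ℝ) := by
  apply le_zz_of
  have h1 := exp_nat_upper 23
  have h4 : Real.exp (23 : ℕ) ≤ 9744803500 := le_trans h1 (by norm_num)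
  have h6 := ph_lt
  have h7 := ph_pos
  push_cast at *
  nlinarith

/-- For points with `κ ≥ 232` the barrier is implied by the a-priori bound. -/
lemma IsGolomb.of_kap (h : IsGolomb f) (k : ℕ) {n : ℕ} (hn : 2216 ≤ n) (hk : 232 ≤ kap k (zz n)) :
    bk k (zz n) ≤ Th f n ∧ bk k (zz n) ≤ - Th f n := by
  have hap := abs_le.1 (h.ap n hn)
  have hz0 : 0 < zz n := by
    have : 12 ≤ zz n ∨ zz n < 12 := le_or_gt _ _
    have h2 : zz 2 < zz n := zz_lt (by norm_num) (by exact_mod_cast (show 2 < n by omega))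
    have h3 : 0 ≤ zz 2 := zz_nonneg le_rfl
    linarith
  have h1 : bk k (zz n) ≤ -((3 / 10) / (zz n + 2)) := by
    unfold bk cc
    have h2 : (3 / 10) / (zz n + 2) ≤ (3 / 10) / zz n :=
      div_le_div_of_nonneg_left (by norm_num) hz0 (by linarith)
    have h3 : 13 / 10000 / zz n * (1 - kap k (zz n)) ≤ -((3 / 10) / zz n) := by
      have h4 : 0 < 1 / zz n := by positivity
      have e1 : 13 / 10000 / zz n * (1 - kap k (zz n)) =
        (1 / zz n) * (13 / 10000 * (1 - kap k (zz n))) := by ring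
      have e2 : -((3 / 10) / zz n) = (1 / zz n) * (-(3 / 10)) := by ring
      rw [e1, e2]
      apply mul_le_mul_of_nonneg_left _ h4.le
      linarith
    linarith
  constructor <;> linarith

lemma IsGolomb.S0 (h : IsGolomb f) {j : ℕ} (hj : 2216 ≤ j) (hz : zz j ≤ 23) :
    bk 0 (zz j) ≤ Th f j := by
  have hj0 : (0 : ℝ) < j := by exact_mod_cast (show 0 < j by omega)
  by_cases h17 : zz j ≤ 17
  · apply (h.of_kap 0 hj _).1
    unfold kap th
    simp only [pow_zero, inv_one, one_mul]
    have : 1 ≤ Real.exp (-(8 / 5) * (zz j + 9 / 5 - 94 / 5)) := by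
      apply Real.one_le_exp
      linarith
    linarith
  · push Not at h17
    have h1 : 39049185 ≤ j := by
      by_contra hc
      push Not at hc
      have : zz j ≤ zz (39049185 : ℝ) := zz_mono hj0 (by exact_mod_cast hc.le)
      linarith [zz_17]
    have h2 : j ≤ 15767500000 := by
      by_contra hc
      push Not at hc
      have : zz (15767500000 : ℝ) < zz j := zz_lt (by norm_num) (by exact_mod_cast hc)
      linarith [zz_23]
    have h3 := h.baseM h1 h2
    refine le_trans ?_ h3
    unfold bk lam cc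
    have hk := kap_pos 0 (zz j)
    have h4 : 13 / 10000 / zz j ≤ 765 / 10000000 := by
      rw [div_le_iff₀ (by linarith)]
      linarith
    have h5 : 0 < 13 / 10000 / zz j := by
      have : 0 < zz j := by linarith
      positivity
    nlinarith

/-- Domain facts. -/
lemma dom_facts {k : ℕ} {z : ℝ} (hk : kap (k + 1) z ≤ 233) :
    285 / 10 ≤ z ∧ 1767 / 100 ≤ z * th (k + 1) := by
  have ht0 := th_pos (k + 1)
  have ht1 := th_le k
  set t := th (k + 1) with ht
  have h1 : 187973 / 10000 ≤ t * (z + 9 / 5) := by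
    unfold kap at hk
    rw [← ht] at hk
    have h2 : Real.exp (-(8 / 5) * (t * (z + 9 / 5) - 94 / 5)) ≤ 233 / 232 := by linarith
    have h3 := Real.add_one_le_exp (-(8 / 5) * (t * (z + 9 / 5) - 94 / 5))
    linarith
  have h2 : 1767 / 100 ≤ z * t := by nlinarith
  refine ⟨?_, h2⟩
  by_contra hc
  push Not at hc
  have hz : 0 < z := by
    by_contra hz
    push Not at hz
    nlinarith
  nlinarith

lemma zz_pred {n : ℕ} (hn : 2217 ≤ n) : zz n - zz ((n : ℝ) - 1) ≤ 1 / 2000 := by
  have hn' : (2217 : ℝ) ≤ n := by exact_mod_cast hn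
  unfold zz
  have h1 : Real.log n - Real.log ((n : ℝ) - 1) = Real.log (n / ((n : ℝ) - 1)) := by
    rw [Real.log_div (by linarith) (by linarith)]
  have h2 : Real.log (n / ((n : ℝ) - 1)) ≤ n / ((n : ℝ) - 1) - 1 :=
    Real.log_le_sub_one_of_pos (div_pos (by linarith) (by linarith))
  have h3 : (n : ℝ) / ((n : ℝ) - 1) - 1 = 1 / ((n : ℝ) - 1) := by
    have : (n : ℝ) - 1 ≠ 0 := by linarith
    field_simp; ring
  have h4 : 1 / ((n : ℝ) - 1) ≤ 1 / 2000 := by
    apply one_div_le_one_div_of_le (by norm_num); linarith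
  linarith

lemma kap_pred {k n : ℕ} (hn : 2217 ≤ n) (hk : kap (k + 1) (zz n) < 232) :
    kap (k + 1) (zz ((n : ℝ) - 1)) ≤ 233 := by
  have ht0 := th_pos (k + 1)
  have ht1 := th_le k
  have h1 := zz_pred hn
  have hn' : (2217 : ℝ) ≤ n := by exact_mod_cast hn
  have h2 : zz ((n : ℝ) - 1) ≤ zz n := zz_mono (by linarith) (by linarith)
  set d := zz n - zz ((n : ℝ) - 1) with hd
  have e : kap (k + 1) (zz ((n : ℝ) - 1)) = kap (k + 1) (zz n) * Real.exp ((8 / 5) * th (k + 1) * d) := by
    unfold kap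
    rw [mul_assoc, ← Real.exp_add]
    congr 2
    rw [hd]; ring
  rw [e]
  have h3 : (8 / 5) * th (k + 1) * d ≤ 1 / 1000 := by
    have : th (k + 1) * d ≤ (6181 / 10000) * (1 / 2000) :=
      mul_le_mul ht1 h1 (by linarith) (by norm_num)
    nlinarith
  have h4 : Real.exp ((8 / 5) * th (k + 1) * d) ≤ 1001 / 999 := by
    have h5 : Real.exp ((8 / 5) * th (k + 1) * d) ≤ Real.exp (1 / 1000) := Real.exp_le_exp.2 h3
    have h6 : Real.exp (1 / 1000) ≤ 1001 / 999 := by
      have h7 := Real.add_one_le_exp (-(1 / 1000) : ℝ)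
      rw [Real.exp_neg] at h7
      have h8 := Real.exp_pos (1 / 1000 : ℝ)
      have h9 : Real.exp (1 / 1000) * (999 / 1000) ≤ 1 := by
        have := mul_le_mul_of_nonneg_left h7 h8.le
        rw [mul_inv_cancel₀ h8.ne'] at this
        norm_num at this ⊢
        linarith
      linarith
    exact h5.trans h6
  have h5 := kap_pos (k + 1) (zz n)
  have h6 := Real.exp_pos ((8 / 5) * th (k + 1) * d)
  nlinarith

lemma Zk_div (k : ℕ) {z : ℝ} (hz : z ≤ Zk (k + 1)) : z / ph + 217 / 10000 ≤ Zk k := by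
  have hp := ph_pos
  have hp1 := ph_gt
  unfold Zk at *
  have h1 : z / ph ≤ (ph ^ (k + 1) * (229 / 10) + 1 / 10) / ph :=
    div_le_div_of_nonneg_right hz hp.le
  have h2 : (ph ^ (k + 1) * (229 / 10) + 1 / 10) / ph = ph ^ k * (229 / 10) + (1 / 10) / ph := by
    rw [pow_succ]; field_simp
  have h3 : (1 / 10) / ph ≤ 62 / 1000 := by
    rw [div_le_iff₀ hp]; linarith
  linarith

/-- Main induction. -/
theorem IsGolomb.S (h : IsGolomb f) (k : ℕ) :
    ∀ j : ℕ, 2216 ≤ j → zz j ≤ Zk k → bk k (zz j) ≤ (-1 : ℝ) ^ k * Th f j := by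
  induction k with
  | zero =>
    intro j hj hz
    have : zz j ≤ 23 := by
      unfold Zk at hz; norm_num at hz; linarith
    simpa using h.S0 hj this
  | succ k ihk =>
    intro n
    induction n using Nat.strong_induction_on with
    | _ n ih =>
    intro hn hz
    have hn0 : (0 : ℝ) < n := by exact_mod_cast (show 0 < n by omega)
    have hp := ph_pos
    have hp1 := ph_gt
    have hp2 := ph_lt
    by_cases hkap : 232 ≤ kap (k + 1) (zz n)
    · obtain ⟨g1, g2⟩ := h.of_kap (k + 1) hn hkap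
      rcases Nat.even_or_odd (k + 1) with he | ho
      · rw [he.neg_one_pow]; linarith
      · rw [ho.neg_one_pow]; linarith
    · push Not at hkap
      have hn1 : 2217 ≤ n := by
        by_contra hc
        have hn2 : n = 2216 := by omega
        obtain ⟨d1, d2⟩ := dom_facts (k := k) (z := zz n) (by linarith)
        rw [hn2] at d1
        have := zz_N1_le
        push_cast at d1
        linarith
      have hn' : (2217 : ℝ) ≤ n := by exact_mod_cast hn1
      have hcast : ((n - 1 : ℕ) : ℝ) = (n : ℝ) - 1 := by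
        push_cast [Nat.cast_sub (show 1 ≤ n by omega)]; ring
      have hkp := kap_pred hn1 hkap
      have hdom : ∀ x : ℝ, (n : ℝ) - 1 ≤ x → kap (k + 1) (zz x) ≤ 233 := by
        intro x hx
        exact (kap_anti (k + 1) (zz_mono (by linarith) hx)).trans hkp
      have hb : ∀ x : ℝ, (n : ℝ) - 1 ≤ x → x ≤ n →
          HasDerivAt (bk (k + 1)) (bk' (k + 1) (zz x)) (zz x) := by
        intro x hx _
        obtain ⟨d1, d2⟩ := dom_facts (hdom x hx)
        exact bk_deriv (k + 1) (by linarith)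
      have hexp : Real.exp (-(zz ((n : ℝ) - 1) / ph)) ≤ 1 / 1000 := by
        obtain ⟨d1, d2⟩ := dom_facts (hdom ((n : ℝ) - 1) le_rfl)
        have := expE_small (z := zz ((n : ℝ) - 1)) (by linarith)
        linarith
      have hB : ∀ x : ℝ, (n : ℝ) - 1 < x → x < n →
          |bk (k + 1) (zz x)| ≤ 3 / 100 ∧ |bk' (k + 1) (zz x)| ≤ 2 / 100 := by
        intro x hx _
        obtain ⟨d1, d2⟩ := dom_facts (hdom x hx.le)
        obtain ⟨e1, e2, e3⟩ := eps_bound k d1 d2 (hdom x hx.le)
        exact ⟨e2, e3⟩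
      have key : ∀ x : ℝ, (n : ℝ) - 1 < x → x < n → ∀ e : ℝ,
          |e| ≤ epsE (bk (k + 1)) (bk' (k + 1)) (zz x) →
          ph * bk (k + 1) (zz x) + bk' (k + 1) (zz x) + bk' (k + 1) (zz x) ^ 2 +
            13 / 10 * Real.exp (-(zz x / ph)) ≤ bk k (zz x / ph + e) := by
        intro x hx _ e he
        obtain ⟨d1, d2⟩ := dom_facts (hdom x hx.le)
        exact keyM k d1 d2 (hdom x hx.le) e he
      have old : ∀ x : ℝ, (n : ℝ) - 1 < x → x < n → ∀ j : ℕ, 1 ≤ j →
          |zz j - zz x / ph| ≤ epsE (bk (k + 1)) (bk' (k + 1)) (zz x) →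
          bk k (zz j) ≤ (-1 : ℝ) ^ k * Th f j := by
        intro x hx hx2 j hj he
        obtain ⟨d1, d2⟩ := dom_facts (hdom x hx.le)
        obtain ⟨e1, e2, e3⟩ := eps_bound k d1 d2 (hdom x hx.le)
        have he' := abs_le.1 (he.trans e1)
        apply ihk j
        · apply ge_N1_of_zz hj
          have hdiv : 17 ≤ zz x / ph := by
            rw [le_div_iff₀ hp]; nlinarith
          linarith
        · have hx3 : zz x ≤ zz n := zz_mono (by linarith) hx2.le
          have := Zk_div k (hx3.trans hz)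
          linarith
      have hprev := ih (n - 1) (by omega) (by omega) (by
        rw [hcast]
        exact (zz_mono (by linarith) (by linarith)).trans hz)
      rw [hcast] at hprev
      rcases Nat.even_or_odd k with he | ho
      · have ho : Odd (k + 1) := he.add_one
        rw [ho.neg_one_pow] at hprev ⊢
        simp only [he.neg_one_pow, one_mul] at old
        have g := h.step_upper' (b := bk (k + 1)) (b' := bk' (k + 1)) (bo := bk k) (by omega)
          hb hexp hB key old (by linarith)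
        linarith
      · have he : Even (k + 1) := ho.add_one
        rw [he.neg_one_pow] at hprev ⊢
        simp only [ho.neg_one_pow] at old
        have g := h.step_lower' (b := bk (k + 1)) (b' := bk' (k + 1)) (bo := bk k) (by omega)
          hb hexp hB key (fun x hx hx2 j hj he => by
            have := old x hx hx2 j hj he
            linarith) (by linarith)
        linarith

lemma Zk_ge (k : ℕ) : 22 + (k : ℝ) ≤ Zk k := by
  unfold Zk
  have h1 : 1 + (k : ℝ) * (ph - 1) ≤ ph ^ k := by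
    have := one_add_mul_le_pow (a := ph - 1) (by linarith [ph_gt_one]) k
    simpa using this
  have h2 : (k : ℝ) * (1 / 2) ≤ (k : ℝ) * (ph - 1) := by
    apply mul_le_mul_of_nonneg_left _ (Nat.cast_nonneg k)
    linarith [ph_gt]
  have h3 : (0 : ℝ) ≤ k := Nat.cast_nonneg k
  nlinarith

/-- There are arbitrarily large `j` with `(-1)^k Θ(j) ≥ c / (2 z(j))`. -/
theorem IsGolomb.exists_j (h : IsGolomb f) (k : ℕ) :
    ∃ j : ℕ, k ≤ j ∧ 2216 ≤ j ∧ 21 ≤ zz j ∧
      (13 / 20000) / zz j ≤ (-1 : ℝ) ^ k * Th f j := by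
  have hp := ph_pos
  have hp1 := ph_gt
  have hZ := Zk_ge k
  have hk0 : (0 : ℝ) ≤ k := Nat.cast_nonneg k
  set X := ph * Real.exp (Zk k) with hX
  have hexp : Real.exp 22 ≤ Real.exp (Zk k) := Real.exp_le_exp.2 (by linarith)
  have hexp22 : (10000 : ℝ) ≤ Real.exp 22 := by
    have := exp_nat_lower 22
    push_cast at this
    refine le_trans ?_ this
    norm_num
  have hX1 : 10000 ≤ X := by
    rw [hX]; nlinarith
  have hX2 : (k : ℝ) + 1 ≤ X := by
    have h1 : Zk k + 1 ≤ Real.exp (Zk k) := Real.add_one_le_exp _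
    have h2 : Real.exp (Zk k) ≤ X := by
      rw [hX]; nlinarith [Real.exp_pos (Zk k)]
    linarith
  set j := ⌊X⌋₊ with hj
  have hj1 : (j : ℝ) ≤ X := Nat.floor_le (by linarith)
  have hj2 : X - 1 < j := by
    have := Nat.lt_floor_add_one X
    linarith
  have hj0 : (0 : ℝ) < j := by linarith
  have hjk : k ≤ j := by
    have : (k : ℝ) ≤ j := by linarith
    exact_mod_cast this
  have hjN : 2216 ≤ j := by
    have : (2216 : ℝ) ≤ j := by linarith
    exact_mod_cast this
  have hzj : zz j ≤ Zk k := by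
    have := zz_mono hj0 hj1
    rwa [hX, zz_ph_mul_exp] at this
  have hzj2 : Zk k - 1 / 100 ≤ zz j := by
    have h1 : zz (X - 1) ≤ zz j := zz_mono (by linarith) hj2.le
    have h2 : zz (X - 1) = Zk k + Real.log (1 + -(1 / X)) := by
      have h3 : X - 1 = X * (1 + -(1 / X)) := by field_simp; ring
      have h4 : zz X = Zk k := by rw [hX, zz_ph_mul_exp]
      rw [h3]
      unfold zz at h4 ⊢
      rw [Real.log_mul (by linarith)]
      · linarith
      · have : 1 / X ≤ 1 / 10000 := one_div_le_one_div_of_le (by norm_num) hX1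
        linarith
    have h5 : 1 / X ≤ 1 / 10000 := one_div_le_one_div_of_le (by norm_num) hX1
    have h6 : 0 < 1 / X := by positivity
    have h7 := (log_one_add_bounds (t := -(1 / X)) (by
      rw [abs_neg, abs_of_pos h6]; linarith)).1
    have h8 : (1 / X) ^ 2 ≤ 1 / X := by nlinarith
    nlinarith
  refine ⟨j, hjk, hjN, by linarith, ?_⟩
  refine le_trans ?_ (h.S k j hjN hzj)
  have hz22 : 0 < zz j := by linarith
  -- κ ≤ 1/2
  have hkap : kap k (zz j) ≤ 1 / 2 := by
    unfold kap
    have h1 : 229 / 10 ≤ th k * (zz j + 9 / 5) := by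
      unfold th
      have hpk : 0 < ph ^ k := by positivity
      rw [inv_mul_eq_div, le_div_iff₀ hpk]
      unfold Zk at hzj2
      nlinarith
    have h2 : Real.exp (-(8 / 5) * (th k * (zz j + 9 / 5) - 94 / 5)) ≤ Real.exp (-(656 / 100)) := by
      apply Real.exp_le_exp.2; linarith
    have h3 : Real.exp (-(656 / 100)) ≤ 1 / 464 := by
      rw [Real.exp_neg, inv_le_comm₀ (Real.exp_pos _) (by norm_num)]
      have h4 := exp_nat_lower 6
      have h5 : Real.exp (656 / 100) = Real.exp (6 : ℕ) * Real.exp (56 / 100) := by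
        rw [← Real.exp_add]; norm_num
      have h6 : (1 + 56 / 100 : ℝ) ≤ Real.exp (56 / 100) := by
        linarith [Real.add_one_le_exp (56 / 100 : ℝ)]
      rw [h5]
      have h7 : (403 : ℝ) ≤ Real.exp (6 : ℕ) := le_trans (by norm_num) h4
      have h8 := mul_le_mul h7 h6 (by norm_num) (Real.exp_pos _).le
      refine le_trans ?_ h8
      norm_num
    linarith
  unfold bk cc
  have h9 : 0 < 13 / 10000 / zz j := by positivity
  have e : 13 / 20000 / zz j = 13 / 10000 / zz j * (1 / 2) := by ring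
  rw [e]
  apply mul_le_mul_of_nonneg_left _ h9.le
  linarith


/-- The main term. -/
noncomputable def F0 (n : ℕ) : ℝ := ph ^ (2 - ph) * (n : ℝ) ^ (ph - 1)

lemma F0_eq {n : ℕ} (hn : 1 ≤ n) : F0 n = ph * Real.exp (zz n / ph) := by
  have hn0 : (0 : ℝ) < n := by exact_mod_cast hn
  have hp := ph_pos
  have e1 : zz n / ph = zz n * (ph - 1) := by rw [div_eq_mul_inv, inv_ph]
  have e2 : ph = Real.exp (Real.log ph) := (Real.exp_log hp).symm
  unfold F0
  rw [Real.rpow_def_of_pos hp, Real.rpow_def_of_pos hn0, e1, ← Real.exp_add]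
  have e3 : ph * Real.exp (zz n * (ph - 1)) = Real.exp (Real.log ph + zz n * (ph - 1)) := by
    rw [Real.exp_add, Real.exp_log hp]
  rw [e3]
  congr 1
  unfold zz
  ring

lemma F0_ge (n : ℕ) : (n : ℝ) ^ (ph - 1) ≤ F0 n := by
  unfold F0
  have h1 : 1 ≤ ph ^ (2 - ph) := Real.one_le_rpow ph_gt_one.le (by linarith [ph_lt])
  have h2 : 0 ≤ (n : ℝ) ^ (ph - 1) := Real.rpow_nonneg (Nat.cast_nonneg n) _
  nlinarith

lemma IsGolomb.f_eq (h : IsGolomb f) {j : ℕ} (hj : 1 ≤ j) :
    f (G f j) = j ∧ (j : ℝ) = F0 (G f j) * Real.exp (-(Th f j / ph)) := by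
  have hp := ph_pos
  constructor
  · obtain ⟨m, rfl⟩ : ∃ m, j = m + 1 := ⟨j - 1, by omega⟩
    exact h.f_G m
  · have hj0 : (0 : ℝ) < j := by exact_mod_cast hj
    rw [F0_eq (h.G_pos hj), mul_assoc, ← Real.exp_add]
    conv_lhs => rw [← ph_mul_exp_zz hj0]
    congr 2
    unfold Th
    field_simp
    ring

lemma zz_le_log {j n : ℕ} (hj : 1 ≤ j) (hjn : j ≤ n) : zz j ≤ Real.log n := by
  have hj0 : (0 : ℝ) < j := by exact_mod_cast hj
  have h1 : Real.log j ≤ Real.log n := Real.log_le_log hj0 (by exact_mod_cast hjn)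
  have h2 : 0 ≤ Real.log ph := Real.log_nonneg ph_gt_one.le
  unfold zz
  linarith

lemma IsGolomb.upper_inf (h : IsGolomb f) (a : ℕ) :
    ∃ n : ℕ, a < n ∧ (f n : ℝ) - F0 n > (1 / 10000) * (n : ℝ) ^ (ph - 1) / Real.log n := by
  obtain ⟨j, hj1, hj2, hz, hb⟩ := h.exists_j (2 * a + 1)
  have hp := ph_pos
  have hp2 := ph_lt
  have hodd : Odd (2 * a + 1) := ⟨a, rfl⟩
  rw [hodd.neg_one_pow] at hb
  refine ⟨G f j, by have := h.le_G j; omega, ?_⟩
  obtain ⟨e1, e2⟩ := h.f_eq (j := j) (by omega)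
  rw [e1]
  set F := F0 (G f j) with hF
  have hFge := F0_ge (G f j)
  rw [← hF] at hFge
  have hGpos : (0 : ℝ) < G f j := by exact_mod_cast h.G_pos (by omega)
  have hpow : 0 < (G f j : ℝ) ^ (ph - 1) := Real.rpow_pos_of_pos hGpos _
  have hF0 : 0 < F := by linarith
  have hlog := zz_le_log (show 1 ≤ j by omega) (h.le_G j)
  set L := Real.log (G f j) with hL
  have hL0 : 0 < L := by linarith
  have hb2 : 13 / 20000 / L ≤ - Th f j := by
    have : 13 / 20000 / L ≤ 13 / 20000 / zz j :=
      div_le_div_of_nonneg_left (by norm_num) (by linarith) hlog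
    linarith
  have hexp : 1 + - (Th f j / ph) ≤ Real.exp (-(Th f j / ph)) := by
    linarith [Real.add_one_le_exp (-(Th f j / ph))]
  have h3 : 2 / 10000 / L ≤ - (Th f j / ph) := by
    have h4 : 2 / 10000 / L ≤ (13 / 20000 / L) / ph := by
      rw [le_div_iff₀ hp]
      have : 0 < 1 / L := by positivity
      have e : (2 / 10000 / L) * ph = (1 / L) * (2 / 10000 * ph) := by ring
      have e' : 13 / 20000 / L = (1 / L) * (13 / 20000) := by ring
      rw [e, e']
      apply mul_le_mul_of_nonneg_left _ this.le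
      linarith
    have h5 : (13 / 20000 / L) / ph ≤ (- Th f j) / ph := div_le_div_of_nonneg_right hb2 hp.le
    have h6 : (- Th f j) / ph = -(Th f j / ph) := by ring
    linarith
  have h4 : F * (1 + 2 / 10000 / L) ≤ j := by
    rw [e2]
    apply mul_le_mul_of_nonneg_left _ hF0.le
    linarith
  have h5 : 0 < 1 / 10000 / L := by positivity
  have h6 : (1 / 10000) * (G f j : ℝ) ^ (ph - 1) / L = (G f j : ℝ) ^ (ph - 1) * (1 / 10000 / L) := by
    ring
  rw [h6]
  have h7 : (G f j : ℝ) ^ (ph - 1) * (1 / 10000 / L) ≤ F * (1 / 10000 / L) :=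
    mul_le_mul_of_nonneg_right hFge h5.le
  have h8 : F * (2 / 10000 / L) = 2 * (F * (1 / 10000 / L)) := by ring
  have h9 : 0 < F * (1 / 10000 / L) := by positivity
  linarith

lemma IsGolomb.lower_inf (h : IsGolomb f) (a : ℕ) :
    ∃ n : ℕ, a < n ∧ (f n : ℝ) - F0 n < -((1 / 10000) * (n : ℝ) ^ (ph - 1) / Real.log n) := by
  obtain ⟨j, hj1, hj2, hz, hb⟩ := h.exists_j (2 * (a + 1))
  have hp := ph_pos
  have hp2 := ph_lt
  have hev : Even (2 * (a + 1)) := even_two_mul _
  rw [hev.neg_one_pow, one_mul] at hb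
  refine ⟨G f j, by have := h.le_G j; omega, ?_⟩
  obtain ⟨e1, e2⟩ := h.f_eq (j := j) (by omega)
  rw [e1]
  set F := F0 (G f j) with hF
  have hFge := F0_ge (G f j)
  rw [← hF] at hFge
  have hGpos : (0 : ℝ) < G f j := by exact_mod_cast h.G_pos (by omega)
  have hpow : 0 < (G f j : ℝ) ^ (ph - 1) := Real.rpow_pos_of_pos hGpos _
  have hF0 : 0 < F := by linarith
  have hlog := zz_le_log (show 1 ≤ j by omega) (h.le_G j)
  set L := Real.log (G f j) with hL
  have hL0 : 21 ≤ L := by linarith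
  have hL1 : 0 < L := by linarith
  have hb2 : 13 / 20000 / L ≤ Th f j := by
    have : 13 / 20000 / L ≤ 13 / 20000 / zz j :=
      div_le_div_of_nonneg_left (by norm_num) (by linarith) hlog
    linarith
  have h3 : 4 / 10000 / L ≤ Th f j / ph := by
    have h4 : 4 / 10000 / L ≤ (13 / 20000 / L) / ph := by
      rw [le_div_iff₀ hp]
      have : 0 < 1 / L := by positivity
      have e : (4 / 10000 / L) * ph = (1 / L) * (4 / 10000 * ph) := by ring
      have e' : 13 / 20000 / L = (1 / L) * (13 / 20000) := by ring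
      rw [e, e']
      apply mul_le_mul_of_nonneg_left _ this.le
      linarith
    have h5 : (13 / 20000 / L) / ph ≤ (Th f j) / ph := div_le_div_of_nonneg_right hb2 hp.le
    linarith
  set x := 4 / 10000 / L with hx
  have hx0 : 0 < x := by positivity
  have hx1 : x ≤ 1 := by
    rw [hx, div_le_one hL1]; linarith
  have hexp : Real.exp (-(Th f j / ph)) ≤ 1 - x / 2 := by
    have a1 : Real.exp (-(Th f j / ph)) ≤ Real.exp (-x) := Real.exp_le_exp.2 (by linarith)
    have a2 : Real.exp (-x) ≤ 1 - x / 2 := by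
      rw [Real.exp_neg, inv_le_comm₀ (Real.exp_pos _) (by linarith)]
      have a3 := Real.add_one_le_exp x
      refine le_trans ?_ a3
      rw [inv_le_iff_one_le_mul₀ (by linarith)]
      nlinarith
    exact a1.trans a2
  have h4 : (j : ℝ) ≤ F * (1 - x / 2) := by
    rw [e2]
    exact mul_le_mul_of_nonneg_left hexp hF0.le
  have h6 : (1 / 10000) * (G f j : ℝ) ^ (ph - 1) / L = (G f j : ℝ) ^ (ph - 1) * (x / 4) := by
    rw [hx]; ring
  rw [h6]
  have h7 : (G f j : ℝ) ^ (ph - 1) * (x / 4) ≤ F * (x / 4) :=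
    mul_le_mul_of_nonneg_right hFge (by positivity)
  have h9 : 0 < F * (x / 4) := by positivity
  nlinarith

end Pool.Agent.H517R2.Golomb
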